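import Pool.Agent.H.MP_f896b9_an.Szlenk

set_option autoImplicit false

namespace Pool.Agent.H.MP_f896b9_an

open Set Filter Topology Ordinal

variable {X : Type} [NormedAddCommGroup X] [NormedSpace ℝ X]

abbrev Zb (X : Type) [NormedAddCommGroup X] (R : ℝ) : Type := Metric.closedBall (0 : X) R

def LipB {R : ℝ} (f : Zb X R → ℝ) : Prop := ∀ z w, f z - f w ≤ ‖z.1 - w.1‖

def Comp {R : ℝ} (θ : ℝ) (f : Zb X R → ℝ) (u : WeakDual ℝ X) : Prop :=
  ∀ w w', (f w - u w.1) - (f w' - u w'.1) ≤ θ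

theorem not_far {ε R : ℝ} (hR : 0 < R) {u v : WeakDual ℝ X} (h : ¬ Far ε u v) (w : Zb X R) :
    u w.1 - v w.1 ≤ ε * R := by
  have hw : ‖w.1‖ ≤ R := mem_closedBall_zero_iff.1 w.2
  by_contra h1
  refine h ⟨R⁻¹ • w.1, ?_, ?_⟩
  · rw [norm_smul, Real.norm_of_nonneg (by positivity), ← div_eq_inv_mul, div_le_one hR]
    exact hw
  · rw [map_smul, map_smul, _root_.smul_eq_mul, _root_.smul_eq_mul, ← _root_.mul_sub,
      ← div_eq_inv_mul, lt_div_iff₀ hR]
    exact not_le.1 h1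

theorem Bs_lip {u : WeakDual ℝ X} (hu : u ∈ Bs X) (x y : X) : u x - u y ≤ ‖x - y‖ := by
  have := le_trans (le_abs_self _) (hu (x - y))
  rwa [map_sub] at this

theorem extend {ε R θ : ℝ} (hR : 0 < R) (hθ : 2 * (ε * R) ≤ θ) {f : Zb X R → ℝ} (hf : LipB f)
    (E : Finset (Zb X R)) (hE : E.Nonempty) {P : Set (WeakDual ℝ X)} (hP : P.Nonempty)
    (hPB : P ⊆ Bs X) (hfar : ∀ u ∈ P, ∀ v ∈ P, ¬ Far ε u v)
    (hc : ∀ u ∈ P, ∀ w ∈ E, ∀ w' ∈ E, (f w - u w.1) - (f w' - u w'.1) ≤ θ) :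
    ∃ g : Zb X R → ℝ, LipB g ∧ (∀ e ∈ E, g e = f e) ∧ ∀ u ∈ P, Comp θ g u := by
  have : Nonempty P := hP.to_subtype
  let lo : WeakDual ℝ X → ℝ := fun u => E.inf' hE fun e => f e - u e.1
  let hi : WeakDual ℝ X → ℝ := fun u => E.sup' hE fun e => f e - u e.1
  let a : WeakDual ℝ X → ℝ := fun u => (lo u + hi u - θ) / 2
  have hlo : ∀ u, ∀ e ∈ E, lo u ≤ f e - u e.1 := fun u e he =>
    Finset.inf'_le (fun e => f e - u e.1) he
  have hhi : ∀ u, ∀ e ∈ E, f e - u e.1 ≤ hi u := fun u e he =>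
    Finset.le_sup' (fun e => f e - u e.1) he
  have hlo2 : ∀ u, ∃ e ∈ E, lo u = f e - u e.1 := fun u =>
    Finset.exists_mem_eq_inf' hE fun e => f e - u e.1
  have hhi2 : ∀ u, ∃ e ∈ E, hi u = f e - u e.1 := fun u =>
    Finset.exists_mem_eq_sup' hE fun e => f e - u e.1
  have hgap : ∀ u ∈ P, hi u - lo u ≤ θ := by
    intro u hu
    obtain ⟨e, he, h1⟩ := hlo2 u
    obtain ⟨e', he', h2⟩ := hhi2 u
    rw [h1, h2]; exact hc u hu _ he' _ he
  have ha1 : ∀ u ∈ P, ∀ e ∈ E, a u ≤ f e - u e.1 ∧ f e - u e.1 ≤ a u + θ := by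
    intro u hu e he
    have := hlo u e he; have := hhi u e he; have := hgap u hu
    simp only [a]
    constructor <;> linarith
  have ha2 : ∀ u ∈ P, ∀ v ∈ P, ∀ w : Zb X R, u w.1 + a u ≤ v w.1 + a v + θ := by
    intro u hu v hv w
    obtain ⟨e, he, h1⟩ := hlo2 v
    obtain ⟨e', he', h2⟩ := hhi2 u
    have h3 := hlo u e he
    have h4 := hhi v e' he'
    have h5 := not_far hR (hfar v hv u hu) e
    have h6 := not_far hR (hfar v hv u hu) e'
    have h7 := not_far hR (hfar u hu v hv) w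
    simp only [a]
    linarith
  let Λ : Zb X R → ℝ := fun w => ⨆ u : P, (u.1 w.1 + a u.1)
  have hbdd : ∀ w : Zb X R, BddAbove (range fun u : P => u.1 w.1 + a u.1) := by
    intro w
    obtain ⟨v, hv⟩ := hP
    refine ⟨v w.1 + a v + θ, ?_⟩
    rintro _ ⟨u, rfl⟩
    exact ha2 _ u.2 v hv w
  have hΛ1 : ∀ u ∈ P, ∀ w, u w.1 + a u ≤ Λ w := fun u hu w => le_ciSup (hbdd w) ⟨u, hu⟩
  have hΛ2 : ∀ w c, (∀ u ∈ P, u w.1 + a u ≤ c) → Λ w ≤ c := fun w c h =>
    ciSup_le fun u => h u.1 u.2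
  let cone : Zb X R → ℝ := fun w => E.sup' hE fun e => f e - ‖w.1 - e.1‖
  have hc1 : ∀ w, ∀ e ∈ E, f e - ‖w.1 - e.1‖ ≤ cone w := fun w e he =>
    Finset.le_sup' (fun e => f e - ‖w.1 - e.1‖) he
  have hc2 : ∀ w c, (∀ e ∈ E, f e - ‖w.1 - e.1‖ ≤ c) → cone w ≤ c := fun w c h =>
    Finset.sup'_le hE _ h
  refine ⟨fun w => max (cone w) (Λ w), ?_, ?_, ?_⟩
  · intro z w
    have h1 : cone z ≤ cone w + ‖z.1 - w.1‖ := by
      refine hc2 _ _ fun e he => ?_
      have := hc1 w e he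
      have h2 : ‖w.1 - e.1‖ ≤ ‖w.1 - z.1‖ + ‖z.1 - e.1‖ := norm_sub_le_norm_sub_add_norm_sub _ _ _
      rw [norm_sub_rev w.1 z.1] at h2
      linarith
    have h2 : Λ z ≤ Λ w + ‖z.1 - w.1‖ := by
      refine hΛ2 _ _ fun u hu => ?_
      have := hΛ1 u hu w
      have := Bs_lip (hPB hu) z.1 w.1
      linarith
    have h3 := le_max_left (cone w) (Λ w)
    have h4 := le_max_right (cone w) (Λ w)
    have : max (cone z) (Λ z) ≤ max (cone w) (Λ w) + ‖z.1 - w.1‖ :=
      max_le (by linarith) (by linarith)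
    simp only
    linarith
  · intro e he
    apply le_antisymm
    · refine max_le (hc2 _ _ fun e' he' => ?_) (hΛ2 _ _ fun u hu => ?_)
      · have := hf e' e
        rw [norm_sub_rev] at this
        linarith
      · have := (ha1 u hu e he).1
        linarith
    · refine le_trans ?_ (le_max_left _ _)
      simpa using hc1 e e he
  · intro u hu w w'
    have h1 : max (cone w) (Λ w) ≤ u w.1 + a u + θ := by
      refine max_le (hc2 _ _ fun e he => ?_) (hΛ2 _ _ fun v hv => ha2 v hv u hu w)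
      have := (ha1 u hu e he).2
      have h2 := Bs_lip (hPB hu) e.1 w.1
      rw [norm_sub_rev] at h2
      linarith
    have h2 := le_trans (hΛ1 u hu w') (le_max_right (cone w') _)
    simp only
    linarith

omit [NormedSpace ℝ X] in
theorem LipB.cont {R : ℝ} {f : Zb X R → ℝ} (hf : LipB f) : Continuous f := by
  refine (LipschitzWith.of_le_add fun z w => ?_).continuous
  have := hf z w
  rw [Subtype.dist_eq, dist_eq_norm]
  linarith

theorem ball_step [TopologicalSpace.SeparableSpace X] {ε R θ δ : ℝ} (hε : 0 < ε) (hR : 0 < R)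
    (hθ : 2 * (ε * R) ≤ θ) (hδ : 0 < δ) {L : Set (WeakDual ℝ X)} (hL : IsClosed L) (hLB : L ⊆ Bs X)
    {γ : Ordinal.{0}} {F : Set (Zb X R → ℝ)} (hF : RepO γ F) (hFL : ∀ f ∈ F, LipB f)
    (hc : ∀ u ∈ sz ε L, ∃ f ∈ F, Comp θ f u) :
    ∃ F' : Set (Zb X R → ℝ), RepO (ω * γ) F' ∧ (∀ f ∈ F', LipB f) ∧
      ∀ u ∈ L, ∃ f ∈ F', Comp (θ + δ) f u := by
  classical
  have hθ0 : 0 ≤ θ := le_trans (by positivity) hθ
  have : Nonempty (Zb X R) := ⟨⟨0, by simpa using hR.le⟩⟩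
  let z : ℕ → Zb X R := TopologicalSpace.denseSeq (Zb X R)
  have hz : DenseRange z := TopologicalSpace.denseRange_denseSeq _
  let A : ℕ → Set (WeakDual ℝ X) := fun N => {u | ∃ f ∈ F, ∀ i ≤ N, ∀ j ≤ N,
    (f (z i) - u (z i).1) - (f (z j) - u (z j).1) < θ + δ / 2}
  have hA : ∀ N, IsOpen (A N) := by
    intro N
    have : A N = ⋃ f ∈ F, ⋂ i ∈ Iic N, ⋂ j ∈ Iic N, {u : WeakDual ℝ X |
        (f (z i) - u (z i).1) - (f (z j) - u (z j).1) < θ + δ / 2} := by
      ext u; simp [A]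
    rw [this]
    refine isOpen_biUnion fun f _ => (finite_Iic N).isOpen_biInter fun i _ =>
      (finite_Iic N).isOpen_biInter fun j _ => isOpen_lt ?_ continuous_const
    exact (continuous_const.sub (ev_cont _)).sub (continuous_const.sub (ev_cont _))
  let C : ℕ → Set (WeakDual ℝ X) := fun N => (L ∩ closure (A N)) \ A (N + 1)
  have hC : ∀ N, IsCompact (C N) := fun N =>
    ((Bs_compact.of_isClosed_subset hL hLB).inter_right isClosed_closure).diff (hA _)
  have hloc : ∀ N, ∀ u ∈ C N, ∃ U : Set (WeakDual ℝ X), U ∈ 𝓝 u ∧ ∃ f ∈ F, ∃ g : Zb X R → ℝ,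
      LipB g ∧ (∀ i ≤ N, g (z i) = f (z i)) ∧ ∀ v ∈ U ∩ L, Comp (θ + δ) g v := by
    intro N u hu
    have h1 : u ∉ sz ε L := by
      intro h
      obtain ⟨f, hf, hcf⟩ := hc u h
      exact hu.2 ⟨f, hf, fun i _ j _ => lt_of_le_of_lt (hcf _ _) (by linarith)⟩
    have h2 : ∃ V, IsOpen V ∧ u ∈ V ∧ ∀ v ∈ V ∩ L, ∀ w ∈ V ∩ L, ¬ Far ε v w := by
      by_contra h
      push Not at h
      exact h1 ⟨hu.1.1, h⟩
    obtain ⟨V, hV1, hV2, hV3⟩ := h2
    let W : Set (WeakDual ℝ X) := {v | ∀ i ∈ Iic N, |v (z i).1 - u (z i).1| < δ / 8}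
    have hW : IsOpen W := open_near (finite_Iic N) (fun i => (z i).1) u _
    have huW : u ∈ W := fun i _ => by simpa using hδ
    obtain ⟨v, hvW, f, hf, hv⟩ := mem_closure_iff.1 hu.1.2 W hW huW
    obtain ⟨g, hg1, hg2, hg3⟩ := extend (θ := θ + δ) hR (by linarith) (hFL f hf)
      ((Finset.range (N + 1)).image z) (by simp) (P := (V ∩ W) ∩ L) ⟨u, ⟨hV2, huW⟩, hu.1.1⟩
      (fun v hv => hLB hv.2) (fun v hv w hw => hV3 v ⟨hv.1.1, hv.2⟩ w ⟨hw.1.1, hw.2⟩) (by
        intro u' hu' w hw w' hw'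
        obtain ⟨i, hi, rfl⟩ := Finset.mem_image.1 hw
        obtain ⟨j, hj, rfl⟩ := Finset.mem_image.1 hw'
        have hi' : i ≤ N := Nat.lt_succ_iff.1 (Finset.mem_range.1 hi)
        have hj' : j ≤ N := Nat.lt_succ_iff.1 (Finset.mem_range.1 hj)
        have t1 := hv i hi' j hj'
        have t2 := abs_lt.1 (hvW i hi')
        have t3 := abs_lt.1 (hvW j hj')
        have t4 := abs_lt.1 (hu'.1.2 i hi')
        have t5 := abs_lt.1 (hu'.1.2 j hj')
        linarith)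
    exact ⟨V ∩ W, (hV1.inter hW).mem_nhds ⟨hV2, huW⟩, f, hf, g, hg1,
      fun i hi => hg2 _ (Finset.mem_image.2 ⟨i, Finset.mem_range.2 (Nat.lt_succ_of_le hi), rfl⟩),
      hg3⟩
  choose U hU f hf g hg1 hg2 hg3 using hloc
  choose t ht using fun N => (hC N).elim_nhds_subcover' (U N) (hU N)
  let P : Type := Σ N : ℕ, t N
  let gp : P → Zb X R → ℝ := fun p => g p.1 p.2.1.1 p.2.1.2
  let fp : P → Zb X R → ℝ := fun p => f p.1 p.2.1.1 p.2.1.2
  refine ⟨F ∪ range gp, hF.grow gp fp (fun p => hf _ _ _) ?_, ?_, ?_⟩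
  · intro w η hη
    obtain ⟨i, hi⟩ := hz.exists_dist_lt w (half_pos hη)
    rw [Subtype.dist_eq, dist_eq_norm] at hi
    have hfin : {p : P | p.1 < i}.Finite := by
      have : {p : P | p.1 < i} = ⋃ N ∈ Iio i, range (Sigma.mk N) := by
        ext ⟨N, x⟩; simp
      rw [this]
      exact (finite_Iio i).biUnion fun N _ => finite_range _
    refine hfin.subset fun p hp => ?_
    by_contra h
    have h1 : gp p (z i) = fp p (z i) := hg2 _ _ _ i (not_lt.1 h)
    have h2 : gp p w - gp p (z i) ≤ _ := hg1 _ _ _ w (z i)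
    have h3 : gp p (z i) - gp p w ≤ _ := hg1 _ _ _ (z i) w
    have h4 : fp p w - fp p (z i) ≤ _ := hFL _ (hf _ _ _) w (z i)
    have h5 : fp p (z i) - fp p w ≤ _ := hFL _ (hf _ _ _) (z i) w
    rw [norm_sub_rev] at h3 h5
    have h6 : |gp p w - fp p w| < η := by rw [abs_lt]; constructor <;> linarith
    exact absurd hp (not_le.2 h6)
  · rintro f' (h | ⟨p, rfl⟩)
    · exact hFL _ h
    · exact hg1 _ _ _
  · intro u hu
    obtain ⟨π, hπ1, hπ2, hπ3⟩ := hF
    by_cases H : ∃ N, u ∉ A N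
    · have h0 : u ∈ A 0 := ⟨π 0, hπ2 0, fun i hi j hj => by
        rw [Nat.le_zero.1 hi, Nat.le_zero.1 hj]; linarith⟩
      have h1 := Nat.find_spec H
      obtain ⟨N, hN⟩ : ∃ N, Nat.find H = N + 1 := by
        refine Nat.exists_eq_succ_of_ne_zero fun h => ?_
        rw [h] at h1; exact h1 h0
      have h2 : u ∈ A N := not_not.1 (Nat.find_min H (by omega))
      rw [hN] at h1
      have h3 := ht N (show u ∈ C N from ⟨⟨hu, subset_closure h2⟩, h1⟩)
      simp only [mem_iUnion] at h3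
      obtain ⟨v, hv, h4⟩ := h3
      exact ⟨gp ⟨N, v, hv⟩, Or.inr ⟨_, rfl⟩, hg3 _ _ _ u ⟨h4, hu⟩⟩
    · push Not at H
      let Q : ℕ → Set Ordinal.{0} := fun N => Icc 0 γ ∩ ⋂ i ∈ Iic N, ⋂ j ∈ Iic N, {a |
        (π a (z i) - u (z i).1) - (π a (z j) - u (z j).1) ≤ θ + δ / 2}
      have hQc : ∀ N, IsClosed (Q N) := fun N =>
        isClosed_Icc.inter (isClosed_biInter fun i _ => isClosed_biInter fun j _ =>
          isClosed_le ((((continuous_apply _).comp hπ1).sub continuous_const).sub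
            (((continuous_apply _).comp hπ1).sub continuous_const)) continuous_const)
      obtain ⟨a, ha⟩ := IsCompact.nonempty_iInter_of_sequence_nonempty_isCompact_isClosed Q
        (fun N a ha => ⟨ha.1, by
          have := ha.2
          simp only [mem_iInter, mem_Iic] at this ⊢
          exact fun i hi j hj => this i (by omega) j (by omega)⟩)
        (fun N => by
          obtain ⟨f', hf', h1⟩ := H N
          obtain ⟨a, ha1, ha2⟩ := hπ3 f' hf'
          refine ⟨a + 1, ⟨zero_le, ha1⟩, ?_⟩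
          simp only [mem_iInter, mem_Iic, mem_setOf_eq, ha2]
          exact fun i hi j hj => (h1 i hi j hj).le)
        (isCompact_Icc.of_isClosed_subset (hQc 0) inter_subset_left) hQc
      refine ⟨π a, Or.inl (hπ2 a), ?_⟩
      have h1 : ∀ i j, (π a (z i) - u (z i).1) - (π a (z j) - u (z j).1) ≤ θ + δ := by
        intro i j
        have := (mem_iInter.1 ha (max i j)).2
        simp only [mem_iInter, mem_Iic, mem_setOf_eq] at this
        have := this i (le_max_left _ _) j (le_max_right _ _)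
        linarith
      have hcont : Continuous fun w : Zb X R => π a w - u w.1 :=
        (hFL _ (hπ2 a)).cont.sub ((WeakDual.toStrongDual u).continuous.comp continuous_subtype_val)
      intro w w'
      refine hz.induction_on₂ (p := fun w w' => (π a w - u w.1) - (π a w' - u w'.1) ≤ θ + δ)
        ?_ h1 w w'
      exact isClosed_le ((hcont.comp continuous_fst).sub (hcont.comp continuous_snd))
        continuous_const

theorem ball_family [TopologicalSpace.SeparableSpace X]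
    (hX : ∀ ε : ℝ, 0 < ε → ∃ k, (sz ε)^[k] (Bs X) = ∅) {R θ : ℝ} (hR : 0 < R) (hθ : 0 < θ) :
    ∃ (h : ℕ) (F : Set (Zb X R → ℝ)), RepO (ω ^ (h : Ordinal.{0})) F ∧ (∀ f ∈ F, LipB f) ∧
      ∀ u ∈ Bs X, ∃ f ∈ F, Comp θ f u := by
  have hε : 0 < θ / (4 * R) := by positivity
  obtain ⟨k, hk⟩ := hX _ hε
  have hδ : 0 < θ / (2 * (k + 1)) := by positivity
  have key : ∀ i j, (sz (θ / (4 * R)))^[j + i] (Bs X) = ∅ →
      ∃ F : Set (Zb X R → ℝ), RepO (ω ^ (i : Ordinal.{0})) F ∧ (∀ f ∈ F, LipB f) ∧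
        ∀ u ∈ (sz (θ / (4 * R)))^[j] (Bs X), ∃ f ∈ F, Comp (θ / 2 + i * (θ / (2 * (k + 1)))) f u := by
    intro i
    induction i with
    | zero =>
      intro j hj
      refine ⟨{fun _ => 0}, by simpa using repO_single _, ?_, ?_⟩
      · rintro f rfl z w; simp
      · rw [add_zero] at hj
        rw [hj]; simp
    | succ i ih =>
      intro j hj
      obtain ⟨F, h1, h2, h3⟩ := ih (j + 1) (by rw [← hj]; congr 1; omega)
      rw [iter_succ] at h3
      have h4 : 2 * (θ / (4 * R) * R) = θ / 2 := by field_simp; norm_num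
      have h5 : 0 ≤ (i : ℝ) * (θ / (2 * (k + 1))) := by positivity
      obtain ⟨F', h6, h7, h8⟩ := ball_step hε hR (by linarith) hδ (iter_facts _ j).1
        (iter_facts _ j).2 h1 h2 h3
      refine ⟨F', ?_, h7, ?_⟩
      · rwa [opow_natCast, pow_succ', ← opow_natCast]
      · push_cast
        rwa [add_mul, one_mul, ← add_assoc]
  obtain ⟨F, h1, h2, h3⟩ := key k 0 (by rwa [zero_add])
  refine ⟨k, F, h1, h2, fun u hu => ?_⟩
  obtain ⟨f, hf, h4⟩ := h3 u hu
  refine ⟨f, hf, fun w w' => le_trans (h4 w w') ?_⟩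
  have : (k : ℝ) * (θ / (2 * (k + 1))) ≤ θ / 2 := by
    rw [mul_div_assoc', div_le_div_iff₀ (by positivity) (by positivity)]
    nlinarith
  linarith

end Pool.Agent.H.MP_f896b9_an
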