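import Mathlib

set_option autoImplicit false

namespace Pool.Agent.H.MP_f896b9_an

open scoped ENNReal NNReal

/-- Lipschitz constant of f -/
noncomputable def lipConst {M Y : Type*} [MetricSpace M] [MetricSpace Y] (f : M → Y) : ℝ≥0∞ :=
  ⨅ (K : ℝ≥0) (_ : LipschitzWith K f), (K : ℝ≥0∞)

/-- Lipschitz constant of the inverse of f -/
noncomputable def invLipConst {M Y : Type*} [MetricSpace M] [MetricSpace Y] (f : M → Y) : ℝ≥0∞ :=
  ⨅ (K : ℝ≥0) (_ : AntilipschitzWith K f), (K : ℝ≥0∞)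

/-- least distortion of an injection of M into Y -/
noncomputable def cdist (M Y : Type*) [MetricSpace M] [MetricSpace Y] : ℝ≥0∞ :=
  ⨅ (f : M → Y) (_ : Function.Injective f), lipConst f * invLipConst f

/-- mean of the squared norm of the Rademacher sums -/
noncomputable def radSq {X : Type} [NormedAddCommGroup X] [NormedSpace ℝ X] {n : ℕ}
    (x : Fin n → X) : ℝ :=
  (∑ ε : Fin n → Bool, ‖∑ i, (if ε i then (1 : ℝ) else -1) • x i‖ ^ 2) / 2 ^ n

def HasType (X : Type) [NormedAddCommGroup X] [NormedSpace ℝ X] : Prop :=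
  ∃ p : ℝ, 1 < p ∧ p ≤ 2 ∧ ∃ C : ℝ, ∀ (n : ℕ) (x : Fin n → X),
    √(radSq x) ≤ C * (∑ i, ‖x i‖ ^ p) ^ (1 / p)

def HasCotype (X : Type) [NormedAddCommGroup X] [NormedSpace ℝ X] : Prop :=
  ∃ q : ℝ, 2 ≤ q ∧ ∃ C : ℝ, ∀ (n : ℕ) (x : Fin n → X),
    (∑ i, ‖x i‖ ^ q) ^ (1 / q) ≤ C * √(radSq x)

def SuperRefl (X : Type) [NormedAddCommGroup X] [NormedSpace ℝ X] : Prop :=
  ∃ (Y : Type) (_ : NormedAddCommGroup Y) (_ : NormedSpace ℝ Y),
    UniformConvexSpace Y ∧ Nonempty (X ≃L[ℝ] Y)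

/-- supremum of the distortion into C([0, ω^α]) over the separable Banach spaces with P -/
noncomputable def classDist (P : ∀ (X : Type) [NormedAddCommGroup X] [NormedSpace ℝ X], Prop)
    (α : Ordinal.{0}) : ℝ≥0∞ :=
  ⨆ (X : Type) (_ : NormedAddCommGroup X) (_ : NormedSpace ℝ X) (_ : CompleteSpace X)
    (_ : TopologicalSpace.SeparableSpace X) (_ : P X),
    cdist X (BoundedContinuousFunction (Set.Iic (Ordinal.omega0 ^ α)) ℝ)

end Pool.Agent.H.MP_f896b9_an
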