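import Pool.Agent.H.MP_f896b9_an.Part

set_option autoImplicit false

namespace Pool.Agent.H.MP_f896b9_an

open Set Filter Topology UniformSpace

variable {Λ : Type} [LinearOrder Λ]

noncomputable def wt (k : ℤ) : ℝ := min ((4 : ℝ) ^ k) ((4 : ℝ) ^ k)⁻¹

theorem wt_summable : Summable wt := by
  have h : Summable fun n : ℕ => ((4 : ℝ)⁻¹) ^ n := summable_geometric_of_lt_one (by norm_num) (by norm_num)
  refine Summable.of_nat_of_neg (Summable.of_nonneg_of_le (fun n => ?_) (fun n => ?_) h)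
    (Summable.of_nonneg_of_le (fun n => ?_) (fun n => ?_) h)
  · rw [wt]; positivity
  · rw [wt, zpow_natCast, inv_pow]; exact min_le_right _ _
  · rw [wt]; positivity
  · rw [wt, zpow_neg, zpow_natCast, inv_pow]; exact min_le_left _ _

theorem kk_wt (k : ℤ) (x : Λ →₀ ℝ) : kk Λ k x ^ 2 / 4 ^ k ≤ p0 Λ x ^ 2 * wt k := by
  have h1 := kk_le k x x
  have h2 := kk_le k x 0
  rw [sub_self, map_zero, mul_zero, add_zero] at h1
  rw [map_zero, zero_add, sub_zero] at h2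
  have h3 : (0 : ℝ) < 4 ^ k := by positivity
  have h4 := le_trans h2 (mul_le_mul_of_nonneg_left (p1_le_p0 x) h3.le)
  have h5 := pow_le_pow_left₀ (apply_nonneg _ _) h1 2
  have h6 := pow_le_pow_left₀ (apply_nonneg _ _) h4 2
  rw [wt, mul_min_of_nonneg _ _ (sq_nonneg _)]
  refine le_min ?_ ?_
  · rw [div_le_iff₀ h3]; linarith
  · rw [← div_eq_mul_inv]; exact div_le_div_of_nonneg_right h5 h3.le

theorem kk_summable (x : Λ →₀ ℝ) : Summable fun k : ℤ => kk Λ k x ^ 2 / 4 ^ k :=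
  Summable.of_nonneg_of_le (fun k => by positivity) (fun k => kk_wt k x) (wt_summable.mul_left _)

theorem four_eq (k : ℤ) (y : ℝ) : y ^ 2 / 4 ^ k = (y / 2 ^ k) ^ (2 : ℝ) := by
  rw [Real.rpow_two, div_pow, ← zpow_natCast ((2 : ℝ) ^ k), ← zpow_mul, mul_comm, zpow_mul]
  norm_num

noncomputable def pth (Λ : Type) [LinearOrder Λ] : Seminorm ℝ (Λ →₀ ℝ) :=
  Seminorm.of (fun x => √(∑' k : ℤ, kk Λ k x ^ 2 / 4 ^ k))
    (fun x y => by
      have hx := kk_summable x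
      have hy := kk_summable y
      have hxy := kk_summable (x + y)
      simp only [four_eq] at hx hy hxy ⊢
      obtain ⟨h1, h2⟩ := Real.Lp_add_le_tsum_of_nonneg (p := 2) (by norm_num)
        (fun k => by positivity) (fun k => by positivity) hx hy
      simp only [Real.sqrt_eq_rpow]
      refine le_trans (Real.rpow_le_rpow (tsum_nonneg fun k => by positivity)
        (hxy.tsum_le_tsum (fun k => ?_) h1) (by norm_num)) h2
      refine Real.rpow_le_rpow (by positivity) ?_ (by norm_num)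
      rw [← add_div]
      exact div_le_div_of_nonneg_right (map_add_le_add _ _ _) (by positivity))
    (fun a x => by
      simp only [map_smul_eq_mul, mul_pow, mul_div_assoc, tsum_mul_left]
      rw [Real.sqrt_mul (sq_nonneg _), Real.sqrt_sq (norm_nonneg _)])

theorem pth_hasSum (x : Λ →₀ ℝ) : HasSum (fun k : ℤ => kk Λ k x ^ 2 / 4 ^ k) (pth Λ x ^ 2) := by
  have : pth Λ x ^ 2 = ∑' k : ℤ, kk Λ k x ^ 2 / 4 ^ k :=
    Real.sq_sqrt (tsum_nonneg fun k => by positivity)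
  rw [this]; exact (kk_summable x).hasSum

theorem p1_le_pth (x : Λ →₀ ℝ) : p1 Λ x ≤ pth Λ x := by
  have h1 := le_hasSum (pth_hasSum x) 0 fun k _ => by positivity
  have h2 := min_le_kk 0 x
  simp only [zpow_zero, min_self, one_mul, div_one] at h1 h2
  exact le_trans h2 (le_of_sq_le_sq h1 (apply_nonneg _ _))

theorem pth_le : ∃ C : ℝ, 0 < C ∧ ∀ x : Λ →₀ ℝ, pth Λ x ≤ C * p0 Λ x := by
  refine ⟨√(∑' k, wt k) + 1, by positivity, fun x => ?_⟩
  have h1 := hasSum_le (fun k => kk_wt k x) (pth_hasSum x) (wt_summable.hasSum.mul_left _)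
  have h2 := Real.le_sqrt_of_sq_le h1
  rw [Real.sqrt_mul (sq_nonneg _), Real.sqrt_sq (apply_nonneg _ _)] at h2
  have := apply_nonneg (p0 Λ) x
  linarith

theorem stepA [Nonempty Λ] {n : ℕ} (G : Finset (Fin n)) (x : Fin n → (Λ →₀ ℝ)) (l : ℕ) :
    ∑ ε : Fin n → Bool, pth Λ (∑ i ∈ G, sg (ε i) • x i) ^ 2 ≤
      2 ^ n * (120 * (G.card / 4 ^ l + (4 ^ l) ^ 3) * ∑ i ∈ G, pth Λ (x i) ^ 2) := by
  have h1 := hasSum_sum (s := Finset.univ) fun (ε : Fin n → Bool) _ =>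
    pth_hasSum (∑ i ∈ G, sg (ε i) • x i)
  have h2 := hasSum_sum (s := G) fun i _ => (Equiv.subRight (l : ℤ)).hasSum_iff.2 (pth_hasSum (x i))
  have h3 := hasSum_sum (s := G) fun i _ => (Equiv.addRight (l : ℤ)).hasSum_iff.2 (pth_hasSum (x i))
  have h4 := ((h2.mul_left (4 * (G.card : ℝ) / 4 ^ l)).add
    (h3.mul_left ((36 * (G.card : ℝ) / (4 ^ l) ^ 2 + 32 * (4 ^ l) ^ 2) * 4 ^ l))).mul_left
      ((2 : ℝ) ^ n * 3)
  refine le_trans (hasSum_le (fun k => ?_) h1 h4) ?_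
  · rw [← Finset.sum_div]
    refine le_trans (div_le_div_of_nonneg_right (level G x k l) (by positivity)) (le_of_eq ?_)
    simp only [Function.comp, Equiv.subRight_apply, Equiv.coe_addRight, ← Finset.sum_div]
    rw [zpow_sub₀ (by norm_num), zpow_add₀ (by norm_num), zpow_natCast]
    field_simp
  · have q : 0 ≤ ∑ i ∈ G, pth Λ (x i) ^ 2 := by positivity
    have e : (36 * G.card / (4 ^ l) ^ 2 + 32 * (4 ^ l) ^ 2) * (4 : ℝ) ^ l =
        36 * (G.card / 4 ^ l) + 32 * (4 ^ l) ^ 3 := by field_simp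
    rw [e, mul_div_assoc]
    have c : 0 ≤ 2 ^ n * ((4 : ℝ) ^ l) ^ 3 * ∑ i ∈ G, pth Λ (x i) ^ 2 := by positivity
    linarith

theorem type_of_blocks {E : Type} [AddCommGroup E] [Module ℝ E] (N : Seminorm ℝ E)
    (h : ∀ (n : ℕ) (G : Finset (Fin n)) (x : Fin n → E) (l : ℕ),
      ∑ ε : Fin n → Bool, N (∑ i ∈ G, sg (ε i) • x i) ^ 2 ≤
        2 ^ n * (120 * (G.card / 4 ^ l + (4 ^ l) ^ 3) * ∑ i ∈ G, N (x i) ^ 2))
    (n : ℕ) (x : Fin n → E) :
    √(radN N x) ≤ (32 * 2 ^ 35) * (∑ i, N (x i) ^ (10 / 9 : ℝ)) ^ (1 / (10 / 9 : ℝ)) := by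
  classical
  set T := ∑ i, N (x i) ^ (10 / 9 : ℝ) with hT
  have hT0 : 0 ≤ T := Finset.sum_nonneg fun i _ => Real.rpow_nonneg (apply_nonneg _ _) _
  set S := T ^ (1 / (10 / 9 : ℝ)) with hS
  have hS0 : 0 ≤ S := Real.rpow_nonneg hT0 _
  have hST : S ^ (10 / 9 : ℝ) = T := by
    rw [hS, ← Real.rpow_mul hT0]; norm_num
  have hle : ∀ i, N (x i) ≤ S := fun i => by
    have h1 : N (x i) ^ (10 / 9 : ℝ) ≤ T :=
      Finset.single_le_sum (f := fun i => N (x i) ^ (10 / 9 : ℝ))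
        (fun i _ => Real.rpow_nonneg (apply_nonneg _ _) _) (Finset.mem_univ i)
    rw [← hST] at h1
    exact (Real.rpow_le_rpow_iff (apply_nonneg _ _) hS0 (by norm_num)).1 h1
  have hlev : ∀ i, ∃ l : ℕ, N (x i) ≠ 0 →
      ((2 : ℝ)⁻¹ ^ 36) ^ (l + 1) * S < N (x i) ∧ N (x i) ≤ ((2 : ℝ)⁻¹ ^ 36) ^ l * S := by
    intro i
    by_cases h0 : N (x i) = 0
    · exact ⟨0, fun h => absurd h0 h⟩
    · have h1 : 0 < N (x i) := lt_of_le_of_ne (apply_nonneg _ _) (Ne.symm h0)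
      have h2 : 0 < S := lt_of_lt_of_le h1 (hle i)
      obtain ⟨l, hl1, hl2⟩ := exists_nat_pow_near_of_lt_one (div_pos h1 h2)
        ((div_le_one h2).2 (hle i)) (y := (2 : ℝ)⁻¹ ^ 36) (by positivity) (by norm_num)
      exact ⟨l, fun _ => ⟨(lt_div_iff₀ h2).1 hl1, (div_le_iff₀ h2).1 hl2⟩⟩
  choose lev hlev using hlev
  let Z := Finset.univ.filter fun i => N (x i) ≠ 0
  let G : ℕ → Finset (Fin n) := fun l => Z.filter fun i => lev i = l
  obtain ⟨L, hL⟩ : ∃ L, ∀ i, lev i < L := ⟨Finset.univ.sup lev + 1, fun i =>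
    Nat.lt_succ_of_le (Finset.le_sup (f := lev) (Finset.mem_univ i))⟩
  have hG : ∀ l, ∀ i ∈ G l,
      ((2 : ℝ)⁻¹ ^ 36) ^ (l + 1) * S < N (x i) ∧ N (x i) ≤ ((2 : ℝ)⁻¹ ^ 36) ^ l * S := by
    intro l i hi
    obtain ⟨h1, h2⟩ := Finset.mem_filter.1 hi
    rw [← h2]; exact hlev i (Finset.mem_filter.1 h1).2
  have hcard : ∀ l, ((G l).card : ℝ) ≤ (2 ^ 40) ^ (l + 1) := by
    intro l
    rcases (G l).eq_empty_or_nonempty with h0 | ⟨i0, hi0⟩
    · rw [h0]; simp
    have hS1 : 0 < S := lt_of_lt_of_le (lt_of_le_of_ne (apply_nonneg _ _)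
      (Ne.symm (Finset.mem_filter.1 (Finset.mem_filter.1 hi0).1).2)) (hle i0)
    have hT1 : 0 < T := by rw [← hST]; positivity
    have e : (((2 : ℝ)⁻¹ ^ 36) ^ (l + 1) * S) ^ (10 / 9 : ℝ) = T / (2 ^ 40) ^ (l + 1) := by
      rw [Real.mul_rpow (by positivity) hS0, hST, ← Real.rpow_natCast _ (l + 1),
        ← Real.rpow_mul (by positivity), mul_comm ((l + 1 : ℕ) : ℝ), Real.rpow_mul (by positivity),
        Real.rpow_natCast, ← Real.rpow_natCast _ 36, ← Real.rpow_mul (by positivity)]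
      have : ((36 : ℕ) : ℝ) * (10 / 9) = (40 : ℕ) := by norm_num
      rw [this, Real.rpow_natCast, inv_pow, inv_pow, div_eq_inv_mul]
    have h1 : (G l).card • (T / (2 ^ 40) ^ (l + 1)) ≤ ∑ i ∈ G l, N (x i) ^ (10 / 9 : ℝ) :=
      Finset.card_nsmul_le_sum _ _ _ fun i hi => by
        rw [← e]
        exact Real.rpow_le_rpow (by positivity) (hG l i hi).1.le (by norm_num)
    have h2 : ∑ i ∈ G l, N (x i) ^ (10 / 9 : ℝ) ≤ T :=
      Finset.sum_le_sum_of_subset_of_nonneg (Finset.subset_univ _)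
        fun i _ _ => Real.rpow_nonneg (apply_nonneg _ _) _
    have h3 := le_trans h1 h2
    rw [nsmul_eq_mul, ← mul_div_assoc, div_le_iff₀ (by positivity), mul_comm] at h3
    exact le_of_mul_le_mul_left h3 hT1
  have hblock : ∀ l, ∑ ε : Fin n → Bool, N (∑ i ∈ G l, sg (ε i) • x i) ^ 2 ≤
      2 ^ n * (240 * 2 ^ 70 * S ^ 2) * (1 / 2) ^ l * (1 / 2) ^ l := by
    intro l
    refine le_trans (h n (G l) x (5 * (l + 1))) ?_
    have h1 : ∑ i ∈ G l, N (x i) ^ 2 ≤ (2 ^ 40) ^ (l + 1) * (((2 : ℝ)⁻¹ ^ 36) ^ l * S) ^ 2 := by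
      refine le_trans (Finset.sum_le_card_nsmul _ _ _ fun i hi =>
        pow_le_pow_left₀ (apply_nonneg _ _) (hG l i hi).2 2) ?_
      rw [nsmul_eq_mul]
      exact mul_le_mul_of_nonneg_right (hcard l) (by positivity)
    have e1 : (4 : ℝ) ^ (5 * (l + 1)) = 2 ^ 10 * (2 ^ l) ^ 10 := by
      rw [pow_mul, pow_succ, ← pow_mul 2 l, mul_comm l, pow_mul]; norm_num; ring
    have e2 : ((2 : ℝ) ^ 40) ^ (l + 1) = 2 ^ 40 * (2 ^ l) ^ 40 := by
      rw [pow_succ, ← pow_mul 2 l, mul_comm l, pow_mul]; ring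
    have e3 : ((2 : ℝ)⁻¹ ^ 36) ^ l = ((2 ^ l) ^ 36)⁻¹ := by
      rw [← pow_mul 2 l, mul_comm l, pow_mul, inv_pow, inv_pow]
    have e4 : ((1 : ℝ) / 2) ^ l = (2 ^ l)⁻¹ := by rw [one_div, inv_pow]
    have h2 := hcard l
    rw [e2] at h2
    rw [e2, e3] at h1
    rw [e1, e4]
    set y : ℝ := 2 ^ l
    have hy : 0 < y := by positivity
    have h3 : ((G l).card : ℝ) / (2 ^ 10 * y ^ 10) ≤ (2 ^ 10 * y ^ 10) ^ 3 := by
      rw [div_le_iff₀ (by positivity)]
      refine le_trans h2 (le_of_eq ?_); ring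
    have h4 : 120 * (((G l).card : ℝ) / (2 ^ 10 * y ^ 10) + (2 ^ 10 * y ^ 10) ^ 3) ≤
        240 * (2 ^ 10 * y ^ 10) ^ 3 := by linarith
    have h5 := mul_le_mul h4 h1 (by positivity) (by positivity)
    rw [mul_assoc ((2 : ℝ) ^ n), mul_assoc ((2 : ℝ) ^ n)]
    refine mul_le_mul_of_nonneg_left (le_trans h5 (le_of_eq ?_)) (by positivity)
    field_simp
  have hsplit : ∀ ε : Fin n → Bool, N (∑ i, sg (ε i) • x i) ^ 2 ≤
      2 * ∑ l ∈ Finset.range L, N (∑ i ∈ G l, sg (ε i) • x i) ^ 2 / (1 / 2) ^ l := by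
    intro ε
    have h1 : N (∑ i, sg (ε i) • x i) ≤ ∑ l ∈ Finset.range L, N (∑ i ∈ G l, sg (ε i) • x i) := by
      rw [← Finset.sum_filter_add_sum_filter_not Finset.univ fun i => N (x i) ≠ 0]
      refine le_trans (map_add_le_add _ _ _) ?_
      have h2 := sg_sum_le N (Finset.univ.filter fun i => ¬ N (x i) ≠ 0) ε x
      rw [Finset.sum_eq_zero (s := Finset.univ.filter fun i => ¬ N (x i) ≠ 0)
        (f := fun i => N (x i)) fun i hi => not_not.1 (Finset.mem_filter.1 hi).2] at h2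
      have h3 := Finset.le_sum_of_subadditive N (map_zero N).le (map_add_le_add N)
        (Finset.range L) fun l => ∑ i ∈ G l, sg (ε i) • x i
      rw [Finset.sum_fiberwise_of_maps_to fun i _ => Finset.mem_range.2 (hL i)] at h3
      linarith
    have h2 := Finset.sum_sq_le_sum_mul_sum_of_sq_le_mul (Finset.range L)
      (r := fun l => N (∑ i ∈ G l, sg (ε i) • x i)) (f := fun l => (1 / 2 : ℝ) ^ l)
      (g := fun l => N (∑ i ∈ G l, sg (ε i) • x i) ^ 2 / (1 / 2) ^ l) (fun l _ => by positivity)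
      (fun l _ => by positivity) (fun l _ => le_of_eq (by field_simp))
    refine le_trans (pow_le_pow_left₀ (apply_nonneg _ _) h1 2) (le_trans h2 ?_)
    exact mul_le_mul_of_nonneg_right (sum_geometric_two_le L) (by positivity)
  have hfin : ∑ ε : Fin n → Bool, N (∑ i, sg (ε i) • x i) ^ 2 ≤
      2 * (2 ^ n * (240 * 2 ^ 70 * S ^ 2) * 2) := by
    refine le_trans (Finset.sum_le_sum fun ε _ => hsplit ε) ?_
    rw [← Finset.mul_sum, Finset.sum_comm]
    refine mul_le_mul_of_nonneg_left (le_trans (Finset.sum_le_sum fun l _ => ?_)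
      (le_trans (le_of_eq (Finset.mul_sum _ _ _).symm)
        (mul_le_mul_of_nonneg_left (sum_geometric_two_le L) (by positivity)))) (by norm_num)
    rw [← Finset.sum_div, div_le_iff₀ (by positivity)]
    exact hblock l
  refine Real.sqrt_le_iff.2 ⟨by positivity, ?_⟩
  rw [radN, div_le_iff₀ (by positivity)]
  have : (0 : ℝ) ≤ 2 ^ n * S ^ 2 := by positivity
  linarith

instance : Nonempty LQ := ⟨toLex (0, false)⟩

theorem typ_space : ∃ M : Seminorm ℝ (LQ →₀ ℝ), (∀ x, 7 * M x ≤ p0 LQ x) ∧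
    HasType (Completion (SN (M ⊔ p1 LQ))) := by
  obtain ⟨C, hC, hC1⟩ := pth_le (Λ := LQ)
  let c : NNReal := ⟨(7 * C)⁻¹, by positivity⟩
  have hc : ∀ x, (c • pth LQ) x = (7 * C)⁻¹ * pth LQ x := fun x => rfl
  refine ⟨c • pth LQ, fun x => ?_, hasType_of (p := 10 / 9)
    (C := ((7 * C)⁻¹ + 1) * ((32 * 2 ^ 35) * (7 * C))) _ (by norm_num) (by norm_num) fun n x => ?_⟩
  · rw [hc, ← mul_assoc, mul_inv, ← mul_assoc, mul_inv_cancel₀ (by norm_num), one_mul,
      ← div_eq_inv_mul, div_le_iff₀ hC, mul_comm]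
    exact hC1 x
  · have h1 := radN_mono (N := c • pth LQ ⊔ p1 LQ) (M := pth LQ) (c := (7 * C)⁻¹ + 1)
      (by positivity) (fun x => by
        rw [Seminorm.sup_apply, hc]
        have t1 := apply_nonneg (pth LQ) x
        have t2 : 0 ≤ (7 * C)⁻¹ * pth LQ x := by positivity
        have t3 := p1_le_pth x
        exact sup_le (by linarith) (by linarith)) x
    have h2 := type_of_blocks (pth LQ) (fun n G x l => stepA G x l) n x
    have h3 := pw_mono (N := pth LQ) (M := c • pth LQ ⊔ p1 LQ) (c := 7 * C) (p := 10 / 9)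
      (by positivity) (by norm_num) (fun x => by
        have : (c • pth LQ) x ≤ (c • pth LQ ⊔ p1 LQ) x := by
          rw [Seminorm.sup_apply]; exact le_sup_left
        rw [hc, ← div_eq_inv_mul, div_le_iff₀ (by positivity), mul_comm] at this
        exact this) x
    rw [mul_assoc, mul_assoc (32 * 2 ^ 35 : ℝ)]
    exact le_trans h1 (mul_le_mul_of_nonneg_left
      (le_trans h2 (mul_le_mul_of_nonneg_left h3 (by positivity))) (by positivity))

end Pool.Agent.H.MP_f896b9_an
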