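import Pool.Agent.H.MP_f896b9_an.Ball
import Pool.Agent.H.MP_349fe0_an.Main

set_option autoImplicit false

namespace Pool.Agent.H.MP_f896b9_an

open Set Filter Topology Ordinal

noncomputable def cp (h v : ℝ) : ℝ := max (min v h) (-h)

theorem cp_abs {h : ℝ} (hh : 0 ≤ h) (v : ℝ) : |cp h v| ≤ h := by
  rw [abs_le]
  exact ⟨le_max_right _ _, max_le (min_le_right _ _) (by linarith)⟩

theorem cp_lip {h h' v v' e : ℝ} (h1 : h - h' ≤ e) (h2 : h' - h ≤ e) (h3 : v - v' ≤ e) :
    cp h v - cp h' v' ≤ e := by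
  have a1 := min_le_left v h
  have a2 := min_le_right v h
  have a3 : min v h - e ≤ min v' h' := le_min (by linarith) (by linarith)
  have a4 := le_max_left (min v' h') (-h')
  have a5 := le_max_right (min v' h') (-h')
  have : cp h v ≤ cp h' v' + e := max_le (by rw [cp]; linarith) (by rw [cp]; linarith)
  linarith

theorem cp_gain {s Hx Hy gx gy β : ℝ} (hβ : 0 < β) (hs : 0 ≤ s) (hx : 0 ≤ Hx) (hy : 0 ≤ Hy)
    (h1 : s ≤ gx - gy) (h2 : s ≤ Hx + Hy) :
    ∃ c : ℤ, |(c : ℝ)| * β ≤ |gx| + s + β ∧ s - β ≤ cp Hx (gx - c * β) - cp Hy (gy - c * β) := by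
  have a1 := min_le_left Hx s
  have a2 := min_le_right Hx s
  have a3 : 0 ≤ min Hx s := le_min hx hs
  have a4 : s - Hy ≤ min Hx s := le_min (by linarith) (by linarith)
  have b1 := Int.floor_le ((gx - min Hx s) / β)
  have b2 := Int.lt_floor_add_one ((gx - min Hx s) / β)
  rw [le_div_iff₀ hβ] at b1
  rw [div_lt_iff₀ hβ] at b2
  refine ⟨⌊(gx - min Hx s) / β⌋, ?_, ?_⟩
  · rw [← abs_of_pos hβ, ← abs_mul, abs_of_pos hβ, abs_le]
    have := le_abs_self gx
    have := neg_abs_le gx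
    constructor <;> linarith
  · have c1 : min Hx s ≤ cp Hx (gx - ⌊(gx - min Hx s) / β⌋ * β) :=
      le_trans (le_min (by linarith) a1) (le_max_left _ _)
    have c2 : cp Hy (gy - ⌊(gx - min Hx s) / β⌋ * β) ≤ -(s - min Hx s) + β :=
      max_le (le_trans (min_le_left _ _) (by linarith)) (by linarith)
    linarith

theorem int_bound {c : ℤ} {β d : ℝ} {r m : ℕ} (hβ : 0 < β) (hd : β * r = d)
    (h : |(c : ℝ)| * β ≤ m * d) : |c| ≤ m * r := by
  have : |(c : ℝ)| ≤ m * r := by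
    refine le_of_mul_le_mul_right ?_ hβ
    rw [← hd] at h; linarith
  exact_mod_cast this

theorem scale {ρ : ℝ} (hρ : 0 < ρ) : ∃ k : ℤ, ρ ≤ (2 : ℝ) ^ k ∧ (2 : ℝ) ^ k ≤ 2 * ρ := by
  obtain ⟨n, hn1, hn2⟩ := exists_mem_Ioc_zpow hρ (one_lt_two (α := ℝ))
  refine ⟨n + 1, hn2, ?_⟩
  rw [zpow_add_one₀ (by norm_num)]; linarith

variable {X : Type} [NormedAddCommGroup X]

noncomputable def HH (d β : ℝ) (j : ℕ) (z : X) : ℝ :=
  max (min (min d (‖z‖ - (j - 2) * d)) (min (‖z‖ - β) ((j + 4) * d - ‖z‖))) 0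

theorem HH_lip (d β : ℝ) (j : ℕ) (z w : X) : HH d β j z - HH d β j w ≤ ‖z - w‖ := by
  have h1 := norm_sub_norm_le z w
  have h2 := norm_sub_norm_le w z
  rw [norm_sub_rev] at h2
  have h0 := norm_nonneg (z - w)
  have a : ∀ a b c e : ℝ, a ≤ c + ‖z - w‖ → b ≤ e + ‖z - w‖ → min a b ≤ min c e + ‖z - w‖ := by
    intro a b c e h3 h4
    have : min a b - ‖z - w‖ ≤ min c e :=
      le_min (by linarith [min_le_left a b]) (by linarith [min_le_right a b])
    linarith
  have : HH d β j z ≤ HH d β j w + ‖z - w‖ := by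
    refine max_le (le_trans (a _ _ (min d (‖w‖ - (j - 2) * d)) (min (‖w‖ - β) ((j + 4) * d - ‖w‖))
      (a _ _ _ _ (by linarith) (by linarith)) (a _ _ _ _ (by linarith) (by linarith))) ?_) ?_
    · exact add_le_add_left (le_max_left _ _) _
    · have : 0 ≤ HH d β j w := le_max_right _ _
      linarith
  linarith

theorem HH_pos {d β δ : ℝ} {j : ℕ} {z : X} (hδ : 0 < δ) (h : δ ≤ HH d β j z) :
    δ ≤ d ∧ δ ≤ ‖z‖ - (j - 2) * d ∧ δ ≤ ‖z‖ - β ∧ δ ≤ (j + 4) * d - ‖z‖ := by
  rcases le_max_iff.1 h with h1 | h1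
  · simp only [le_min_iff] at h1
    exact ⟨h1.1.1, h1.1.2, h1.2.1, h1.2.2⟩
  · linarith

open Classical in
noncomputable def PP (d β : ℝ) (j : ℕ) (c : ℤ) (o : Zb X ((j + 4) * d))
    (f : Zb X ((j + 4) * d) → ℝ) (z : X) : ℝ :=
  cp (HH d β j z) ((if hz : z ∈ Metric.closedBall (0 : X) ((j + 4) * d) then f ⟨z, hz⟩ else 0)
    - f o - c * β)

theorem PP_cont (d β : ℝ) (j : ℕ) (c : ℤ) (o : Zb X ((j + 4) * d)) :
    Continuous (PP d β j c o) := by
  refine continuous_pi fun z => ?_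
  unfold PP cp
  by_cases hz : z ∈ Metric.closedBall (0 : X) ((j + 4) * d)
  · simp only [dif_pos hz]; fun_prop
  · simp only [dif_neg hz]; fun_prop

theorem PP_abs (d β : ℝ) (j : ℕ) (c : ℤ) (o : Zb X ((j + 4) * d)) (f : Zb X ((j + 4) * d) → ℝ)
    (z : X) : |PP d β j c o f z| ≤ HH d β j z := cp_abs (le_max_right _ _) _

theorem HH_out {d β : ℝ} {j : ℕ} {z : X} (hz : z ∉ Metric.closedBall (0 : X) ((j + 4) * d)) :
    HH d β j z = 0 := by
  rw [mem_closedBall_zero_iff, not_le] at hz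
  refine max_eq_right (le_trans (min_le_right _ _) (le_trans (min_le_right _ _) (by linarith)))

theorem PP_lip (d β : ℝ) (j : ℕ) (c : ℤ) (o : Zb X ((j + 4) * d)) {f : Zb X ((j + 4) * d) → ℝ}
    (hf : LipB f) (z w : X) : PP d β j c o f z - PP d β j c o f w ≤ ‖z - w‖ := by
  have h1 := HH_lip d β j z w
  have h2 := HH_lip d β j w z
  rw [norm_sub_rev] at h2
  have h3 := abs_le.1 (PP_abs d β j c o f z)
  have h4 := abs_le.1 (PP_abs d β j c o f w)
  by_cases hz : z ∈ Metric.closedBall (0 : X) ((j + 4) * d)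
  · by_cases hw : w ∈ Metric.closedBall (0 : X) ((j + 4) * d)
    · refine cp_lip h1 h2 ?_
      rw [dif_pos hz, dif_pos hw]
      have := hf ⟨z, hz⟩ ⟨w, hw⟩
      linarith
    · rw [HH_out hw] at h1 h4
      linarith
  · rw [HH_out hz] at h2 h3
    linarith

theorem sr_embed [NormedSpace ℝ X] [TopologicalSpace.SeparableSpace X]
    (hX : ∀ ε : ℝ, 0 < ε → ∃ k, (sz ε)^[k] (Bs X) = ∅) {r : ℕ} (hr : 6 ≤ r) {γ : Ordinal.{0}}
    (hγ : ω ^ ω ≤ γ) :
    ∃ φ : X → BoundedContinuousFunction (Set.Iic γ) ℝ, ∀ x y,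
      (1 - 6 / r) * dist x y ≤ dist (φ x) (φ y) ∧ dist (φ x) (φ y) ≤ dist x y := by
  have hr' : (6 : ℝ) ≤ r := by exact_mod_cast hr
  choose h F h1 h2 h3 using fun (k : ℤ) (j : ℕ) => ball_family hX
    (R := (j + 4) * (2 : ℝ) ^ k) (θ := 2 * ((2 : ℝ) ^ k / r)) (by positivity) (by positivity)
  let o : ∀ (k : ℤ) (j : ℕ), Zb X ((j + 4) * (2 : ℝ) ^ k) := fun k j =>
    ⟨0, by rw [mem_closedBall_zero_iff, norm_zero]; positivity⟩
  let G : ℤ × ℕ × ℤ → Set (X → ℝ) := fun p =>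
    PP ((2 : ℝ) ^ p.1) ((2 : ℝ) ^ p.1 / r) p.2.1 p.2.2 (o p.1 p.2.1) '' F p.1 p.2.1
  have key := rep_omega (fun p : ℤ × ℕ × ℤ => h p.1 p.2.1) (fun _ => 0)
    (fun p => |p.2.2| ≤ (p.2.1 + 6 : ℕ) * r) G (fun p _ => (h1 _ _).image _ (PP_cont _ _ _ _ _)) ?_
  · refine embed_of_rep (key.mono hγ) ?_ ?_ ?_
    · rintro f (rfl | ⟨p, -, f, hf, rfl⟩) x y
      · simp
      · exact PP_lip _ _ _ _ _ (h2 _ _ f hf) x y
    · rintro f (rfl | ⟨p, -, f, hf, rfl⟩) x
      · simp
      · refine le_trans (PP_abs _ _ _ _ _ _ _) (max_le ?_ (norm_nonneg _))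
        refine le_trans (min_le_right _ _) (le_trans (min_le_left _ _) ?_)
        have : 0 ≤ (2 : ℝ) ^ p.1 / r := by positivity
        linarith
    · intro x y hxy
      have hρ : 0 < ‖x - y‖ := norm_pos_iff.2 (sub_ne_zero.2 hxy)
      obtain ⟨k, hk1, hk2⟩ := scale hρ
      set d : ℝ := (2 : ℝ) ^ k with hd
      have hd0 : 0 < d := by positivity
      set β : ℝ := d / r with hβd
      have hβ : 0 < β := by positivity
      have hβr : β * r = d := by rw [hβd]; field_simp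
      have hβ6 : 6 * β ≤ d := by nlinarith
      set j : ℕ := ⌊‖x‖ / d⌋₊ with hj
      have j1 : (j : ℝ) * d ≤ ‖x‖ := by
        rw [← le_div_iff₀ hd0]; exact Nat.floor_le (by positivity)
      have j2 : ‖x‖ < (j + 1) * d := by
        rw [← div_lt_iff₀ hd0]; exact Nat.lt_floor_add_one _
      have n1 := norm_sub_norm_le x y
      have n2 := norm_sub_norm_le y x
      rw [norm_sub_rev] at n2
      have n3 := norm_sub_le x y
      have hx : x ∈ Metric.closedBall (0 : X) ((j + 4) * d) := by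
        rw [mem_closedBall_zero_iff]; linarith
      have hy : y ∈ Metric.closedBall (0 : X) ((j + 4) * d) := by
        rw [mem_closedBall_zero_iff]; linarith
      obtain ⟨u, hu1, hu2⟩ := exists_dual_vector'' ℝ (x - y)
      obtain ⟨f, hf, hc⟩ := h3 k j (StrongDual.toWeakDual u) (fun w => by
        have := u.le_of_opNorm_le hu1 w
        rw [one_mul] at this
        exact this)
      have c1 : (f ⟨x, hx⟩ - u x) - (f ⟨y, hy⟩ - u y) ≤ 2 * β := hc ⟨x, hx⟩ ⟨y, hy⟩
      have c2 : (f ⟨y, hy⟩ - u y) - (f ⟨x, hx⟩ - u x) ≤ 2 * β := hc ⟨y, hy⟩ ⟨x, hx⟩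
      rw [map_sub] at hu2
      simp only [RCLike.ofReal_real_eq_id, id] at hu2
      have hHx : min d (‖x‖ - β) ≤ HH d β j x := by
        refine le_trans (le_min (le_min (min_le_left _ _) ?_) (le_min (min_le_right _ _) ?_))
          (le_max_left _ _) <;> linarith [min_le_left d (‖x‖ - β)]
      have hHy : min d (‖y‖ - β) ≤ HH d β j y := by
        refine le_trans (le_min (le_min (min_le_left _ _) ?_) (le_min (min_le_right _ _) ?_))
          (le_max_left _ _) <;> linarith [min_le_left d (‖y‖ - β)]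
      have hx0 : 0 ≤ HH d β j x := le_max_right _ _
      have hy0 : 0 ≤ HH d β j y := le_max_right _ _
      obtain ⟨c, hc1, hc2⟩ := cp_gain (s := ‖x - y‖ - 2 * β) (gx := f ⟨x, hx⟩ - f (o k j))
        (gy := f ⟨y, hy⟩ - f (o k j)) hβ (by linarith) hx0 hy0 (by linarith) (by
          rcases min_choice d (‖x‖ - β) with e1 | e1 <;>
          rcases min_choice d (‖y‖ - β) with e2 | e2 <;> rw [e1] at hHx <;> rw [e2] at hHy <;>
          linarith)
      refine ⟨PP d β j c (o k j) f, Or.inr ⟨(k, j, c), ?_, f, hf, rfl⟩, ?_⟩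
      · refine int_bound hβ hβr (le_trans hc1 ?_)
        have t1 := h2 _ _ f hf ⟨x, hx⟩ (o k j)
        have t2 := h2 _ _ f hf (o k j) ⟨x, hx⟩
        simp only [o, _root_.sub_zero, _root_.zero_sub, norm_neg] at t1 t2
        have t3 : |f ⟨x, hx⟩ - f (o k j)| ≤ ‖x‖ := by
          rw [abs_le]; constructor <;> simp only [o] <;> linarith
        push_cast
        linarith
      · refine le_trans ?_ (le_abs_self _)
        simp only [PP, dif_pos hx, dif_pos hy]
        have t : 3 * β ≤ 6 / r * ‖x - y‖ := by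
          rw [hβd, mul_div_assoc', div_mul_eq_mul_div]
          exact div_le_div_of_nonneg_right (by linarith) (by positivity)
        linarith
  · intro z δ hδ
    obtain ⟨J, hJ⟩ := exists_nat_ge (‖z‖ / δ + 2)
    refine ((Pool.Agent.H.MP_349fe0_an.finite_scales (a := δ) (b := ‖z‖ * r) hδ).prod
      ((finite_Iic J).prod (finite_Icc (-((J + 6 : ℕ) * r : ℤ)) ((J + 6 : ℕ) * r)))).subset ?_
    rintro ⟨k, j, c⟩ ⟨hc, _, ⟨f, hf, rfl⟩, hd⟩
    rw [_root_.sub_zero] at hd
    obtain ⟨a1, a2, a3, a4⟩ := HH_pos hδ (le_trans hd (PP_abs _ _ _ _ _ _ _))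
    simp only at a1 a2 a3 a4 hc
    have hj : j ≤ J := by
      by_contra h
      have t1 : (J : ℝ) ≤ j := by exact_mod_cast (not_le.1 h).le
      have t0 : 0 ≤ ‖z‖ / δ := by positivity
      have t2 : ‖z‖ / δ ≤ j - 2 := by linarith
      rw [div_le_iff₀ hδ] at t2
      have t3 := mul_le_mul_of_nonneg_left a1 (show (0 : ℝ) ≤ j - 2 by linarith)
      linarith
    refine ⟨⟨a1, ?_⟩, hj, ?_⟩
    · rw [← div_le_iff₀ (by positivity)]; linarith
    · rw [mem_Icc, ← abs_le]
      refine le_trans hc (mul_le_mul_of_nonneg_right ?_ (by positivity))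
      exact_mod_cast Nat.add_le_add_right hj 6

noncomputable def hd (z : ℕ → X) (d : ℝ) : ℕ → X → ℝ
  | 0, _ => d
  | n + 1, w => min (hd z d n w) ‖w - z n‖

theorem hd_le (z : ℕ → X) (d : ℝ) (n : ℕ) (w : X) :
    hd z d n w ≤ d ∧ ∀ i < n, hd z d n w ≤ ‖w - z i‖ := by
  induction n with
  | zero => exact ⟨le_rfl, fun i hi => absurd hi (Nat.not_lt_zero _)⟩
  | succ n ih =>
    refine ⟨le_trans (min_le_left _ _) ih.1, fun i hi => ?_⟩
    rcases (Nat.lt_succ_iff.1 hi).lt_or_eq with h | rfl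
    · exact le_trans (min_le_left _ _) (ih.2 i h)
    · exact min_le_right _ _

theorem hd_eq (z : ℕ → X) (d : ℝ) (n : ℕ) (w : X) :
    hd z d n w = d ∨ ∃ i < n, hd z d n w = ‖w - z i‖ := by
  induction n with
  | zero => exact Or.inl rfl
  | succ n ih =>
    rcases min_choice (hd z d n w) ‖w - z n‖ with h | h
    · rcases ih with h1 | ⟨i, hi, h1⟩
      · exact Or.inl (h.trans h1)
      · exact Or.inr ⟨i, by omega, h.trans h1⟩
    · exact Or.inr ⟨n, by omega, h⟩

theorem hd_lip (z : ℕ → X) (d : ℝ) (n : ℕ) (w w' : X) : hd z d n w - hd z d n w' ≤ ‖w - w'‖ := by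
  obtain ⟨h1, h2⟩ := hd_le z d n w
  rcases hd_eq z d n w' with h | ⟨i, hi, h⟩
  · have := norm_nonneg (w - w'); linarith
  · have := h2 i hi
    have := norm_sub_le_norm_sub_add_norm_sub w w' (z i)
    linarith

theorem kl_embed [TopologicalSpace.SeparableSpace X] {r : ℕ} (hr : 12 ≤ r) {γ : Ordinal.{0}}
    (hγ : ω ≤ γ) :
    ∃ φ : X → BoundedContinuousFunction (Set.Iic γ) ℝ, ∀ x y,
      (1 / 2 - 6 / r) * dist x y ≤ dist (φ x) (φ y) ∧ dist (φ x) (φ y) ≤ dist x y := by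
  classical
  have hr' : (12 : ℝ) ≤ r := by exact_mod_cast hr
  let z : ℕ → X := fun n => Nat.casesOn n 0 (TopologicalSpace.denseSeq X)
  have hz : ∀ (w : X) (δ : ℝ), 0 < δ → ∃ i, ‖w - z i‖ < δ := by
    intro w δ hδ
    obtain ⟨i, hi⟩ := (TopologicalSpace.denseRange_denseSeq X).exists_dist_lt w hδ
    exact ⟨i + 1, by rwa [dist_eq_norm] at hi⟩
  have hz0 : ∀ w : X, ‖w - z 0‖ = ‖w‖ := fun w => by simp [z]
  let P : Type := {p : ℤ × ℕ × ℕ × ℤ // 1 ≤ p.2.1 ∧ p.2.2.1 ≤ p.2.1 ∧ |p.2.2.2| ≤ (4 : ℕ) * r}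
  let H : ℤ → ℕ → X → ℝ := fun k n w => max (hd z ((2 : ℝ) ^ k) n w - (2 : ℝ) ^ k / r) 0
  have hH : ∀ k n w w', H k n w - H k n w' ≤ ‖w - w'‖ := by
    intro k n w w'
    have h1 := hd_lip z ((2 : ℝ) ^ k) n w w'
    have h2 : _ ≤ H k n w' := le_max_left _ _
    have h3 : _ ≤ H k n w' := le_max_right _ _
    have h4 := norm_nonneg (w - w')
    have : H k n w ≤ H k n w' + ‖w - w'‖ := max_le (by linarith) (by linarith)
    linarith
  let g : P → X → ℝ := fun p w =>
    cp (H p.1.1 p.1.2.1 w) (‖w - z p.1.2.2.1‖ - p.1.2.2.2 * ((2 : ℝ) ^ p.1.1 / r))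
  have hg : ∀ p w, |g p w| ≤ H p.1.1 p.1.2.1 w := fun p w => cp_abs (le_max_right _ _) _
  have key := (repO_single (fun _ : X => (0 : ℝ))).grow g (fun _ _ => 0) (fun _ => rfl) ?_
  · rw [mul_one] at key
    refine embed_of_rep (key.mono hγ) ?_ ?_ ?_
    · rintro f (rfl | ⟨p, rfl⟩) x y
      · simp
      · refine cp_lip (hH _ _ _ _) (by rw [norm_sub_rev]; exact hH _ _ _ _) ?_
        have := norm_sub_le_norm_sub_add_norm_sub x y (z p.1.2.2.1)
        linarith
    · rintro f (rfl | ⟨p, rfl⟩) x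
      · simp
      · refine le_trans (hg p x) (max_le ?_ (norm_nonneg _))
        have h1 := (hd_le z ((2 : ℝ) ^ p.1.1) p.1.2.1 x).2 0 p.2.1
        have : 0 ≤ (2 : ℝ) ^ p.1.1 / r := by positivity
        rw [hz0] at h1
        linarith
    · intro x y hxy
      have hρ : 0 < ‖x - y‖ := norm_pos_iff.2 (sub_ne_zero.2 hxy)
      obtain ⟨k, hk1, hk2⟩ := scale hρ
      set d : ℝ := (2 : ℝ) ^ k with hd'
      have hd0 : 0 < d := by positivity
      set β : ℝ := d / r with hβd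
      have hβ : 0 < β := by positivity
      have hβr : β * r = d := by rw [hβd]; field_simp
      have hβ6 : 12 * β ≤ d := by nlinarith
      have hex : ∃ n, hd z d (n + 1) x + hd z d (n + 1) y < ‖x - y‖ / 2 := by
        obtain ⟨i, hi⟩ := hz x (‖x - y‖ / 4) (by positivity)
        obtain ⟨i', hi'⟩ := hz y (‖x - y‖ / 4) (by positivity)
        have t1 := (hd_le z d (max i i' + 1) x).2 i (by omega)
        have t2 := (hd_le z d (max i i' + 1) y).2 i' (by omega)
        exact ⟨max i i', by linarith⟩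
      have h1 := Nat.find_spec hex
      set n := Nat.find hex with hn
      have hpos : ∀ m w, 0 ≤ hd z d m w := fun m w => by
        rcases hd_eq z d m w with h | ⟨i, -, h⟩ <;> rw [h] <;> positivity
      obtain ⟨j, hj, ej⟩ := (hd_eq z d (n + 1) x).resolve_left (fun h => by
        have := hpos (n + 1) y; linarith)
      obtain ⟨j', hj', ej'⟩ := (hd_eq z d (n + 1) y).resolve_left (fun h => by
        have := hpos (n + 1) x; linarith)
      rw [ej, ej'] at h1
      have hn1 : 1 ≤ n := by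
        by_contra h
        have e1 : j = 0 := by omega
        have e2 : j' = 0 := by omega
        rw [e1, e2, hz0, hz0] at h1
        have := norm_sub_le x y
        linarith
      have h2 : ‖x - y‖ / 2 ≤ hd z d n x + hd z d n y := by
        have := Nat.find_min hex (m := n - 1) (by omega)
        rw [Nat.sub_add_cancel hn1] at this
        exact not_lt.1 this
      have hHx : hd z d n x - β ≤ H k n x := le_max_left _ _
      have hHy : hd z d n y - β ≤ H k n y := le_max_left _ _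
      have t : 3 * β ≤ 6 / r * ‖x - y‖ := by
        rw [hβd, mul_div_assoc', div_mul_eq_mul_div]
        exact div_le_div_of_nonneg_right (by linarith) (by positivity)
      have main : ∀ (a b : X) (i : ℕ), i ≤ n → ‖x - y‖ / 2 - 2 * β ≤ H k n a + H k n b →
          ‖x - y‖ / 2 ≤ ‖a - z i‖ - ‖b - z i‖ → ‖a - z i‖ ≤ 2 * d →
          ∃ p : P, (1 / 2 - 6 / r) * ‖x - y‖ ≤ g p a - g p b := by
        intro a b i hi e1 e2 e3
        obtain ⟨c, hc1, hc2⟩ := cp_gain (s := ‖x - y‖ / 2 - 2 * β) (gx := ‖a - z i‖)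
          (gy := ‖b - z i‖) (Hx := H k n a) (Hy := H k n b) hβ (by linarith)
          (le_max_right _ _) (le_max_right _ _) (by linarith) e1
        refine ⟨⟨(k, n, i, c), hn1, hi, int_bound hβ hβr (le_trans hc1 ?_)⟩, ?_⟩
        · rw [abs_norm]; push_cast; linarith
        · simp only [g]
          linarith
      have s1 := norm_sub_le_norm_sub_add_norm_sub x (z j) y
      have s2 := norm_sub_le_norm_sub_add_norm_sub x (z j') y
      have s3 := norm_sub_le_norm_sub_add_norm_sub y x (z j)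
      have s4 := norm_sub_le_norm_sub_add_norm_sub x y (z j')
      rw [norm_sub_rev (z j) y] at s1
      rw [norm_sub_rev (z j') y] at s2
      rw [norm_sub_rev y x] at s3
      have s5 := norm_nonneg (x - z j)
      have s6 := norm_nonneg (y - z j')
      by_cases hc : ‖x - y‖ / 2 ≤ ‖x - z j'‖ - ‖y - z j'‖
      · obtain ⟨p, hp⟩ := main x y j' (by omega) (by linarith) hc (by linarith)
        exact ⟨g p, Or.inr ⟨p, rfl⟩, le_trans hp (le_abs_self _)⟩
      · obtain ⟨p, hp⟩ := main y x j (by omega) (by linarith) (by linarith) (by linarith)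
        refine ⟨g p, Or.inr ⟨p, rfl⟩, le_trans hp ?_⟩
        rw [abs_sub_comm]; exact le_abs_self _
  · intro w δ hδ
    obtain ⟨i, hi⟩ := hz w δ hδ
    refine (((Pool.Agent.H.MP_349fe0_an.finite_scales (a := δ) (b := ‖w‖ * r) hδ).prod
      ((finite_Iic i).prod ((finite_Iic i).prod
        (finite_Icc (-((4 : ℕ) * r : ℤ)) ((4 : ℕ) * r))))).preimage
          Subtype.val_injective.injOn).subset ?_
    rintro ⟨⟨k, n, j, c⟩, h1, h2, h3⟩ hp
    simp only [mem_setOf_eq, _root_.sub_zero] at hp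
    have h4 := le_trans hp (hg _ _)
    simp only at h1 h2 h3 h4
    have h5 : δ ≤ hd z ((2 : ℝ) ^ k) n w - (2 : ℝ) ^ k / r :=
      (le_max_iff.1 h4).resolve_right (not_le.2 hδ)
    obtain ⟨h6, h7⟩ := hd_le z ((2 : ℝ) ^ k) n w
    have h8 : 0 ≤ (2 : ℝ) ^ k / r := by positivity
    have h9 := h7 0 h1
    rw [hz0] at h9
    have hn : n ≤ i := by
      by_contra h
      have := h7 i (not_le.1 h)
      linarith
    refine ⟨⟨by linarith, ?_⟩, hn, le_trans h2 hn, ?_⟩
    · rw [← div_le_iff₀ (by positivity)]; linarith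
    · rw [mem_Icc, ← abs_le]; exact h3

end Pool.Agent.H.MP_f896b9_an
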