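import Pool.Agent.H.MP_f896b9_an.SR
import Pool.Agent.H.MP_f896b9_an.Typ
import Pool.Agent.H.MP_f896b9_an.Upper

set_option autoImplicit false

namespace Pool.Agent.H.MP_f896b9_an

open Set Filter Topology UniformSpace Ordinal
open scoped ENNReal NNReal

variable {M : Type} {Y : Type 1} [MetricSpace M] [MetricSpace Y]

theorem cdist_le {φ : M → Y} {κ : ℝ} (hκ : 0 < κ)
    (h : ∀ x y, κ * dist x y ≤ dist (φ x) (φ y) ∧ dist (φ x) (φ y) ≤ dist x y) :
    cdist M Y ≤ ENNReal.ofReal (1 / κ) := by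
  have h1 : LipschitzWith 1 φ := LipschitzWith.mk_one fun x y => (h x y).2
  have h2 : AntilipschitzWith (1 / κ).toNNReal φ := AntilipschitzWith.of_le_mul_dist fun x y => by
    rw [Real.coe_toNNReal _ (by positivity), one_div, ← div_eq_inv_mul, le_div_iff₀ hκ, mul_comm]
    exact (h x y).1
  refine le_trans (iInf₂_le φ h2.injective) ?_
  have h3 : lipConst φ ≤ 1 := iInf₂_le (f := fun (K : ℝ≥0) (_ : LipschitzWith K φ) => (K : ℝ≥0∞)) 1 h1
  have h4 : invLipConst φ ≤ ENNReal.ofReal (1 / κ) :=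
    iInf₂_le (f := fun (K : ℝ≥0) (_ : AntilipschitzWith K φ) => (K : ℝ≥0∞)) _ h2
  simpa using mul_le_mul' h3 h4

theorem cdist_lim {c : ℝ} (hc : 0 < c) (r0 : ℕ) (h : ∀ r : ℕ, r0 ≤ r → ∃ φ : M → Y, ∀ x y,
    (c - 6 / r) * dist x y ≤ dist (φ x) (φ y) ∧ dist (φ x) (φ y) ≤ dist x y) :
    cdist M Y ≤ ENNReal.ofReal (1 / c) := by
  have h1 : Tendsto (fun r : ℕ => c - 6 / (r : ℝ)) atTop (𝓝 (c - 0)) :=
    tendsto_const_nhds.sub (tendsto_const_div_atTop_nhds_zero_nat 6)
  rw [_root_.sub_zero] at h1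
  refine ge_of_tendsto (ENNReal.tendsto_ofReal (tendsto_const_nhds.div h1 hc.ne')) ?_
  filter_upwards [h1.eventually (lt_mem_nhds hc), eventually_ge_atTop r0] with r h2 h3
  obtain ⟨φ, hφ⟩ := h r h3
  exact cdist_le h2 hφ

theorem le_cdist {D : ℝ} (hD : 0 < D) (h : ∀ (φ : M → Y) (a b : ℝ), 0 < a → b < D * a →
    (∀ x y, a * dist x y ≤ dist (φ x) (φ y) ∧ dist (φ x) (φ y) ≤ b * dist x y) → False) :
    ENNReal.ofReal D ≤ cdist M Y := by
  refine le_iInf₂ fun f hf => ?_
  rcases subsingleton_or_nontrivial M with hM | hM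
  · exact (h f 1 0 one_pos (by linarith) fun x y => by simp [Subsingleton.elim x y]).elim
  have h1 : ∀ x y, edist (f x) (f y) ≤ lipConst f * edist x y := by
    intro x y
    rcases eq_or_ne x y with rfl | hxy
    · simp
    · rw [← ENNReal.div_le_iff (edist_pos.2 hxy).ne' (edist_ne_top _ _)]
      refine le_iInf₂ fun K hK => ?_
      rw [ENNReal.div_le_iff (edist_pos.2 hxy).ne' (edist_ne_top _ _)]
      exact hK x y
  have h2 : ∀ x y, edist x y ≤ invLipConst f * edist (f x) (f y) := by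
    intro x y
    rcases eq_or_ne x y with rfl | hxy
    · simp
    · have hxy' := hf.ne hxy
      rw [← ENNReal.div_le_iff (edist_pos.2 hxy').ne' (edist_ne_top _ _)]
      refine le_iInf₂ fun K hK => ?_
      rw [ENNReal.div_le_iff (edist_pos.2 hxy').ne' (edist_ne_top _ _)]
      exact hK x y
  obtain ⟨x0, y0, hxy⟩ := exists_pair_ne M
  have h3 : lipConst f ≠ 0 := fun e => by
    have := h1 x0 y0
    rw [e, zero_mul] at this
    exact absurd this (not_le.2 (edist_pos.2 (hf.ne hxy)))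
  have h4 : invLipConst f ≠ 0 := fun e => by
    have := h2 x0 y0
    rw [e, zero_mul] at this
    exact absurd this (not_le.2 (edist_pos.2 hxy))
  by_contra h5
  rw [not_le] at h5
  have h6 := ne_top_of_lt h5
  have h7 : lipConst f ≠ ⊤ := fun e => h6 (by rw [e, ENNReal.top_mul h4])
  have h8 : invLipConst f ≠ ⊤ := fun e => h6 (by rw [e, ENNReal.mul_top h3])
  have h9 : 0 < (invLipConst f).toReal := ENNReal.toReal_pos h4 h8
  have h10 := ENNReal.toReal_lt_of_lt_ofReal h5
  rw [ENNReal.toReal_mul] at h10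
  refine h f (invLipConst f).toReal⁻¹ (lipConst f).toReal (by positivity) ?_ fun x y => ⟨?_, ?_⟩
  · rw [← div_eq_mul_inv, lt_div_iff₀ h9]; exact h10
  · have := ENNReal.toReal_mono (ENNReal.mul_ne_top h8 (edist_ne_top _ _)) (h2 x y)
    rw [ENNReal.toReal_mul, ← dist_edist, ← dist_edist] at this
    rw [← div_eq_inv_mul, div_le_iff₀ h9, mul_comm]; exact this
  · have := ENNReal.toReal_mono (ENNReal.mul_ne_top h7 (edist_ne_top _ _)) (h1 x y)
    rwa [ENNReal.toReal_mul, ← dist_edist, ← dist_edist] at this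

theorem class_le {P : ∀ (X : Type) [NormedAddCommGroup X] [NormedSpace ℝ X], Prop}
    {α : Ordinal.{0}} (hα : 1 ≤ α) : classDist P α ≤ 2 := by
  refine iSup_le fun X => iSup_le fun _ => iSup_le fun _ => iSup_le fun _ => iSup_le fun _ =>
    iSup_le fun _ => ?_
  have h1 : ω ≤ ω ^ α := by
    simpa using opow_le_opow_right omega0_pos hα
  have := cdist_lim (M := X) (c := 1 / 2) (by norm_num) 12 fun r hr => kl_embed hr h1
  simpa using this

theorem le_class {P : ∀ (X : Type) [NormedAddCommGroup X] [NormedSpace ℝ X], Prop}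
    {α : Ordinal.{0}} (X : Type) [i1 : NormedAddCommGroup X] [i2 : NormedSpace ℝ X]
    [i3 : CompleteSpace X] (i4 : TopologicalSpace.SeparableSpace X) (hP : P X) :
    cdist X (BoundedContinuousFunction (Set.Iic (ω ^ α)) ℝ) ≤ classDist P α :=
  le_iSup_of_le X (le_iSup_of_le i1 (le_iSup_of_le i2 (le_iSup_of_le i3 (le_iSup_of_le i4
    (le_iSup_of_le hP le_rfl)))))

theorem main (α : Ordinal.{0}) (h1 : 1 ≤ α) (hc : α < Ordinal.omega 1) :
    classDist HasType α = 2 ∧ classDist HasCotype α = 2 ∧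
      (α < ω → classDist SuperRefl α = 2) ∧ (ω ≤ α → classDist SuperRefl α = 1) := by
  have := iic_countable hc
  refine ⟨le_antisymm (class_le h1) ?_, le_antisymm (class_le h1) ?_,
    fun h => le_antisymm (class_le h1) ?_, fun h => le_antisymm ?_ ?_⟩
  · obtain ⟨N, hN, hT⟩ := typ_space
    refine le_trans ?_ (le_class _ (sep_completion _) hT)
    simpa using le_cdist two_pos fun φ a b ha hab hφ => line_no_embed N hN ha hab hφ
  · refine le_trans ?_ (le_class _ (sep_completion _) cot_space)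
    simpa using le_cdist two_pos fun φ a b ha hab hφ =>
      line_no_embed MC (fun x => by rw [MC_apply]; linarith) ha hab hφ
  · obtain ⟨k, rfl⟩ := lt_omega0.1 h
    refine le_trans ?_ (le_class _ (sr_space (k + 1)).1 (sr_space (k + 1)).2)
    simpa using le_cdist two_pos fun φ a b ha hab hφ => sr_no_embed (derived_empty k) ha hab hφ
  · refine iSup_le fun X => iSup_le fun _ => iSup_le fun _ => iSup_le fun _ => iSup_le fun _ =>
      iSup_le fun hX => ?_
    obtain ⟨Y, _, _, _, ⟨T⟩⟩ := hX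
    have := cdist_lim (M := X) (c := 1) one_pos 6 fun r hr =>
      sr_embed (fun ε hε => sz_finite T hε) hr (opow_le_opow_right omega0_pos h)
    simpa using this
  · refine le_trans ?_ (le_class ℝ inferInstance
      ⟨ℝ, inferInstance, inferInstance, inferInstance, ⟨ContinuousLinearEquiv.refl ℝ ℝ⟩⟩)
    have := le_cdist (M := ℝ) (Y := BoundedContinuousFunction (Set.Iic (ω ^ α)) ℝ) one_pos
      fun φ a b ha hab hφ => by
        have h2 := hφ 0 1
        have h3 : dist (0 : ℝ) 1 = 1 := by simp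
        rw [h3] at h2
        linarith [h2.1, h2.2]
    simpa using this

end Pool.Agent.H.MP_f896b9_an
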