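import Pool.Agent.H.MP_f896b9_an.Space

set_option autoImplicit false

namespace Pool.Agent.H.MP_f896b9_an

open Set Filter Topology UniformSpace

variable {Λ : Type}

noncomputable def l1 (μ : Λ →₀ ℝ) : ℝ := ∑ a ∈ μ.support, |μ a|

theorem l1_eq {μ : Λ →₀ ℝ} {S : Finset Λ} (h : μ.support ⊆ S) : l1 μ = ∑ a ∈ S, |μ a| :=
  Finset.sum_subset h fun a _ ha => by rw [Finsupp.notMem_support_iff.1 ha, abs_zero]

noncomputable def p0 (Λ : Type) : Seminorm ℝ (Λ →₀ ℝ) :=
  Seminorm.of l1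
    (fun x y => by
      classical
      rw [l1_eq (Finsupp.support_add (g₁ := x) (g₂ := y)),
        l1_eq (μ := x) (S := x.support ∪ y.support) Finset.subset_union_left,
        l1_eq (μ := y) (S := x.support ∪ y.support) Finset.subset_union_right,
        ← Finset.sum_add_distrib]
      exact Finset.sum_le_sum fun a _ => abs_add_le _ _)
    (fun a x => by
      rw [l1_eq (Finsupp.support_smul (b := a) (g := x)), l1, Finset.mul_sum]
      exact Finset.sum_congr rfl fun b _ => by simp [abs_mul])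

theorem p0_eq {μ : Λ →₀ ℝ} {S : Finset Λ} (h : μ.support ⊆ S) : p0 Λ μ = ∑ a ∈ S, |μ a| := l1_eq h

theorem p0_single (a : Λ) (c : ℝ) : p0 Λ (Finsupp.single a c) = |c| := by
  rw [p0_eq Finsupp.support_single_subset]; simp

open Classical in
noncomputable def cum (U : Set Λ) : (Λ →₀ ℝ) →ₗ[ℝ] ℝ :=
  Finsupp.linearCombination ℝ fun a => if a ∈ U then 1 else 0

open Classical in
theorem cum_single (U : Set Λ) (a : Λ) (c : ℝ) :
    cum U (Finsupp.single a c) = if a ∈ U then c else 0 := by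
  simp [cum]

open Classical in
theorem cum_eq (U : Set Λ) {μ : Λ →₀ ℝ} {S : Finset Λ} (h : μ.support ⊆ S) :
    cum U μ = ∑ a ∈ S, if a ∈ U then μ a else 0 := by
  rw [cum, Finsupp.linearCombination_apply, Finsupp.sum_of_support_subset _ h _ (by simp)]
  simp

theorem cum_le (U : Set Λ) (μ : Λ →₀ ℝ) : |cum U μ| ≤ p0 Λ μ := by
  rw [cum_eq U subset_rfl, p0_eq subset_rfl]
  refine le_trans (Finset.abs_sum_le_sum_abs _ _) (Finset.sum_le_sum fun a _ => ?_)
  split_ifs <;> simp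

variable [LinearOrder Λ]

noncomputable def p1 (Λ : Type) [LinearOrder Λ] : Seminorm ℝ (Λ →₀ ℝ) :=
  supS (fun U : {U : Set Λ // IsLowerSet U} => cum U.1) fun μ => ⟨p0 Λ μ, by
    rintro _ ⟨U, rfl⟩; exact cum_le _ _⟩

theorem le_p1 {U : Set Λ} (hU : IsLowerSet U) (μ : Λ →₀ ℝ) : |cum U μ| ≤ p1 Λ μ :=
  le_supS (fun U : {U : Set Λ // IsLowerSet U} => cum U.1) _ ⟨U, hU⟩ μ

theorem p1_le {μ : Λ →₀ ℝ} {c : ℝ} (hc : 0 ≤ c) (h : ∀ U, IsLowerSet U → |cum U μ| ≤ c) :
    p1 Λ μ ≤ c := supS_le _ _ hc fun U => h U.1 U.2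

theorem p1_le_p0 (μ : Λ →₀ ℝ) : p1 Λ μ ≤ p0 Λ μ := p1_le (apply_nonneg _ _) fun _ _ => cum_le _ _

abbrev LQ : Type := Lex (ℚ × Bool)

instance : Countable LQ := inferInstanceAs (Countable (ℚ × Bool))

noncomputable def dl (q : ℚ) (b : Bool) (c : ℝ) : LQ →₀ ℝ := Finsupp.single (toLex (q, b)) c

theorem lq_le {q r : ℚ} (h : q ≤ r) (b : Bool) : (toLex (q, false) : LQ) ≤ toLex (r, b) := by
  rw [Prod.Lex.toLex_le_toLex]
  rcases h.lt_or_eq with h | h
  · exact Or.inl h
  · exact Or.inr ⟨h, Bool.false_le _⟩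

theorem lq_lt {q r : ℚ} (h : q < r) (b b' : Bool) : (toLex (q, b) : LQ) ≤ toLex (r, b') := by
  rw [Prod.Lex.toLex_le_toLex]; exact Or.inl h

theorem line_no_embed {K : Type 1} [TopologicalSpace K] [CompactSpace K] [Countable K]
    (M : Seminorm ℝ (LQ →₀ ℝ)) (hM : ∀ x, 7 * M x ≤ p0 LQ x)
    {φ : Completion (SN (M ⊔ p1 LQ)) → BoundedContinuousFunction K ℝ} {a b : ℝ} (ha : 0 < a)
    (hab : b < 2 * a)
    (hφ : ∀ x y, a * dist x y ≤ dist (φ x) (φ y) ∧ dist (φ x) (φ y) ≤ b * dist x y) : False := by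
  have hN : ∀ x, p0 LQ x ≤ 7 → (∀ U, IsLowerSet U → |cum U x| ≤ 1) →
      ‖emb (M ⊔ p1 LQ) x‖ ≤ 1 := by
    intro x h1 h2
    rw [norm_emb, Seminorm.sup_apply]
    exact sup_le (by linarith [hM x]) (p1_le zero_le_one h2)
  have h2 : ∀ q b q' b' c c', p0 LQ (dl q b c - dl q' b' c') ≤ |c| + |c'| := by
    intro q b q' b' c c'
    refine le_trans (map_sub_le_add _ _ _) ?_
    rw [dl, dl, p0_single, p0_single]
  refine no_embed_countable (fun q => emb _ (dl q false 2 - dl 0 false 1)) (fun q hq => ?_)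
    (fun r hr => ⟨emb _ (dl r false 2 - dl r true 2), emb _ (dl r true 2 - dl r false 2), ?_,
      fun q hq hqr => ?_, fun q hq => ?_⟩) ha hab hφ
  · refine hN _ (le_trans (h2 _ _ _ _ _ _) (by norm_num)) fun U hU => ?_
    have c1 := fun h => hU (lq_le hq.le false) h
    simp only [map_sub, dl, cum_single]
    split_ifs with e1 e2 <;> first | exact absurd (c1 e1) e2 | norm_num
  · rw [← map_sub, norm_emb, Seminorm.sup_apply]
    refine le_trans (le_trans ?_ (le_p1 (isLowerSet_Iic (toLex (r, false))) _)) le_sup_right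
    have : ¬ (toLex (r, true) : LQ) ≤ toLex (r, false) := by
      rw [Prod.Lex.toLex_le_toLex]; simp
    simp only [map_sub, dl, cum_single, mem_Iic, le_refl, if_true, if_neg this]
    norm_num
  · rw [← map_sub]
    refine hN _ (le_trans (map_sub_le_add _ _ _) (le_trans
      (add_le_add (h2 _ _ _ _ _ _) (h2 _ _ _ _ _ _)) (by norm_num))) fun U hU => ?_
    have c1 := fun h => hU (lq_le hq.le false) h
    have c2 := fun h => hU (lq_le hqr false) h
    have c3 := fun h => hU (lq_le (le_refl r) true) h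
    simp only [map_sub, dl, cum_single]
    split_ifs <;> first | (exfalso; tauto) | norm_num
  · rw [← map_sub]
    refine hN _ (le_trans (map_sub_le_add _ _ _) (le_trans
      (add_le_add (h2 _ _ _ _ _ _) (h2 _ _ _ _ _ _)) (by norm_num))) fun U hU => ?_
    have c1 := fun h => hU (lq_le hr.le false) h
    have c2 := fun h => hU (lq_lt hq true false) h
    have c3 := fun h => hU (lq_le (le_refl r) true) h
    simp only [map_sub, dl, cum_single]
    split_ifs <;> first | (exfalso; tauto) | norm_num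

omit [LinearOrder Λ] in
theorem cot_p0 (n : ℕ) (x : Fin n → (Λ →₀ ℝ)) :
    (∑ i, p0 Λ (x i) ^ (2 : ℝ)) ^ (1 / (2 : ℝ)) ≤ 2 * √(radN (p0 Λ) x) := by
  classical
  let S : Finset Λ := Finset.univ.biUnion fun i => (x i).support
  have hS : ∀ i, (x i).support ⊆ S := fun i =>
    Finset.subset_biUnion_of_mem (fun i => (x i).support) (Finset.mem_univ i)
  have hS' : ∀ ε : Fin n → Bool, (∑ i, sg (ε i) • x i).support ⊆ S := fun ε =>
    Finsupp.support_finsetSum.trans (Finset.biUnion_mono fun i _ => Finsupp.support_smul)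
  let v : Λ → EuclideanSpace ℝ (Fin n) := fun a => WithLp.toLp 2 fun i => |x i a|
  have h1 : (∑ i, p0 Λ (x i) ^ (2 : ℝ)) ^ (1 / (2 : ℝ)) = ‖∑ a ∈ S, v a‖ := by
    rw [EuclideanSpace.norm_eq, Real.sqrt_eq_rpow]
    congr 1
    refine Finset.sum_congr rfl fun i _ => ?_
    rw [p0_eq (hS i), Real.norm_eq_abs, sq_abs, Real.rpow_two]
    simp [v]
  have h2 : ∀ a, ‖v a‖ = √(∑ i, x i a ^ 2) := fun a => by
    rw [EuclideanSpace.norm_eq]; simp [v]
  have h3 : 2 ^ n * ‖∑ a ∈ S, v a‖ ≤ 2 * ∑ ε : Fin n → Bool, p0 Λ (∑ i, sg (ε i) • x i) := by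
    refine le_trans (mul_le_mul_of_nonneg_left (norm_sum_le _ _) (by positivity)) ?_
    simp only [p0_eq (hS' _), h2]
    rw [Finset.sum_comm, Finset.mul_sum, Finset.mul_sum]
    refine Finset.sum_le_sum fun a _ => le_trans (khintchine n _) (le_of_eq ?_)
    simp [Finsupp.finsetSum_apply]
  have h4 : (∑ ε : Fin n → Bool, p0 Λ (∑ i, sg (ε i) • x i)) / 2 ^ n ≤ √(radN (p0 Λ) x) := by
    refine Real.le_sqrt_of_sq_le ?_
    have := sq_sum_le_card_mul_sum_sq (s := Finset.univ)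
      (f := fun ε : Fin n → Bool => p0 Λ (∑ i, sg (ε i) • x i))
    simp only [Finset.card_univ, Fintype.card_pi, Fintype.card_bool, Finset.prod_const,
      Fintype.card_fin] at this
    push_cast at this
    rw [radN, div_pow, div_le_div_iff₀ (by positivity) (by positivity)]
    have h5 : (0 : ℝ) < 2 ^ n := by positivity
    nlinarith
  rw [div_le_iff₀ (by positivity)] at h4
  rw [h1]
  refine le_of_mul_le_mul_left ?_ (show (0 : ℝ) < 2 ^ n by positivity)
  linarith

noncomputable def MC : Seminorm ℝ (LQ →₀ ℝ) := (7⁻¹ : NNReal) • p0 LQ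

theorem MC_apply (x : LQ →₀ ℝ) : MC x = 7⁻¹ * p0 LQ x := by
  simp [MC, NNReal.smul_def]

theorem cot_space : HasCotype (Completion (SN (MC ⊔ p1 LQ))) := by
  refine hasCotype_of (q := 2) (C := 14) _ le_rfl fun n x => ?_
  have h1 := pw_mono (N := MC ⊔ p1 LQ) (M := p0 LQ) (c := 1) (p := 2) zero_le_one two_pos
    (fun x => by
      rw [Seminorm.sup_apply, MC_apply, one_mul]
      have := apply_nonneg (p0 LQ) x
      exact sup_le (by linarith) (p1_le_p0 x)) x
  have h2 := radN_mono (N := p0 LQ) (M := MC ⊔ p1 LQ) (c := 7) (by norm_num) (fun x => by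
    have : MC x ≤ (MC ⊔ p1 LQ) x := by rw [Seminorm.sup_apply]; exact le_sup_left
    rw [MC_apply] at this
    linarith) x
  have h3 := cot_p0 n x
  linarith

end Pool.Agent.H.MP_f896b9_an
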