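import Pool.Agent.H.MP_349fe0_an.Ord

set_option autoImplicit false

namespace Pool.Agent.H.MP_f896b9_an

open Set Filter Topology

variable {X : Type} [NormedAddCommGroup X] {K : Type 1} [TopologicalSpace K]

def sg (b : Bool) : ℝ := if b then 1 else -1

theorem sg_abs (b : Bool) (x : ℝ) : |sg b * x| = |x| := by cases b <;> simp [sg]

theorem sep {φ : X → BoundedContinuousFunction K ℝ} {a b : ℝ} (ha : 0 < a) (hab : b < 2 * a)
    (hφ : ∀ x y, a * dist x y ≤ dist (φ x) (φ y) ∧ dist (φ x) (φ y) ≤ b * dist x y)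
    {A B : X} (h : 4 ≤ ‖A - B‖) : ∃ t σ, ∀ p q, ‖A - p‖ ≤ 1 → ‖B - q‖ ≤ 1 →
      2 * a - b ≤ sg σ * (φ p t - φ q t) := by
  have h1 := hφ A B
  rw [dist_eq_norm A B] at h1
  have hb : 0 < b := by
    by_contra hb
    have := mul_nonpos_of_nonpos_of_nonneg (not_lt.1 hb) (norm_nonneg (A - B))
    nlinarith [h1.1, h1.2]
  have h2 : ¬ dist (φ A) (φ B) ≤ 2 * a + b := by nlinarith [h1.1]
  rw [BoundedContinuousFunction.dist_le (by positivity)] at h2
  push Not at h2
  obtain ⟨t, ht⟩ := h2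
  have h3 : ∀ x y, ‖x - y‖ ≤ 1 → |φ x t - φ y t| ≤ b := by
    intro x y hxy
    have t1 := BoundedContinuousFunction.dist_coe_le_dist (f := φ x) (g := φ y) t
    have t2 := (hφ x y).2
    rw [dist_eq_norm x y] at t2
    rw [Real.dist_eq] at t1
    nlinarith
  rw [Real.dist_eq] at ht
  rcases lt_abs.1 ht with h4 | h4
  · refine ⟨t, true, fun p q hp hq => ?_⟩
    have := abs_le.1 (h3 _ _ hp); have := abs_le.1 (h3 _ _ hq)
    simp only [sg, if_true]; linarith
  · refine ⟨t, false, fun p q hp hq => ?_⟩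
    have := abs_le.1 (h3 _ _ hp); have := abs_le.1 (h3 _ _ hq)
    simp only [sg, Bool.false_eq_true, if_false]; linarith

theorem bdd {φ : X → BoundedContinuousFunction K ℝ} {a b : ℝ}
    (hφ : ∀ x y, a * dist x y ≤ dist (φ x) (φ y) ∧ dist (φ x) (φ y) ≤ b * dist x y)
    {x : X} (hx : ‖x‖ ≤ 1) (t : K) : |φ x t - φ 0 t| ≤ |b| := by
  have t1 := BoundedContinuousFunction.dist_coe_le_dist (f := φ x) (g := φ 0) t
  have t2 := (hφ x 0).2
  rw [dist_zero_right] at t2
  rw [Real.dist_eq] at t1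
  have t3 := le_abs_self b
  have t4 := abs_nonneg b
  have t5 := norm_nonneg x
  nlinarith

theorem no_embed_countable [CompactSpace K] [Countable K] (p : ℚ → X) (hp : ∀ q, 0 < q → ‖p q‖ ≤ 1)
    (hX : ∀ r : ℚ, 0 < r → ∃ A B : X, 4 ≤ ‖A - B‖ ∧ (∀ q, 0 < q → q ≤ r → ‖A - p q‖ ≤ 1) ∧
      ∀ q, r < q → ‖B - p q‖ ≤ 1)
    {φ : X → BoundedContinuousFunction K ℝ} {a b : ℝ} (ha : 0 < a) (hab : b < 2 * a)
    (hφ : ∀ x y, a * dist x y ≤ dist (φ x) (φ y) ∧ dist (φ x) (φ y) ≤ b * dist x y) : False := by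
  set η := 2 * a - b with hη
  have hη0 : 0 < η := by linarith
  have key : ∀ ρ : Ioi (0 : ℝ), ∃ x : K × Bool, ∀ q q' : ℚ, 0 < q → (q : ℝ) < ρ → (ρ : ℝ) < q' →
      η ≤ sg x.2 * (φ (p q) x.1 - φ (p q') x.1) := by
    intro ρ
    let T : ℕ → Set (K × Bool) := fun n => {x | ∀ q q' : ℚ, 0 < q → (q : ℝ) ≤ ρ - 1 / (n + 1) →
      (ρ : ℝ) < q' → η ≤ sg x.2 * (φ (p q) x.1 - φ (p q') x.1)}
    have hT : ∀ n, IsClosed (T n) := by
      intro n
      simp only [T, setOf_forall]
      refine isClosed_iInter fun q => isClosed_iInter fun q' => isClosed_iInter fun _ =>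
        isClosed_iInter fun _ => isClosed_iInter fun _ => isClosed_le continuous_const ?_
      exact ((continuous_of_discreteTopology (f := sg)).comp continuous_snd).mul
        (((φ _).continuous.comp continuous_fst).sub ((φ _).continuous.comp continuous_fst))
    obtain ⟨x, hx⟩ := IsCompact.nonempty_iInter_of_sequence_nonempty_isCompact_isClosed T
      (fun n x hx q q' h1 h2 h3 => hx q q' h1 (le_trans h2 (by
        have : (1 : ℝ) / ((n + 1 : ℕ) + 1) ≤ 1 / (n + 1) :=
          one_div_le_one_div_of_le (by positivity) (by push_cast; linarith)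
        linarith)) h3)
      (fun n => by
        have h0 : (0 : ℝ) < 1 / (n + 1) := by positivity
        obtain ⟨r, hr1, hr2⟩ := exists_rat_btwn
          (max_lt ρ.2 (by linarith) : max 0 ((ρ : ℝ) - 1 / (n + 1)) < ρ)
        rw [max_lt_iff] at hr1
        obtain ⟨A, B, h1, h2, h3⟩ := hX r (by exact_mod_cast hr1.1)
        obtain ⟨t, σ, h4⟩ := sep ha hab hφ h1
        refine ⟨(t, σ), fun q q' c1 c2 c3 => h4 _ _ (h2 q c1 ?_) (h3 q' ?_)⟩
        · exact_mod_cast (lt_of_le_of_lt c2 hr1.2).le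
        · exact_mod_cast hr2.trans c3)
      (hT 0).isCompact hT
    refine ⟨x, fun q q' h1 h2 h3 => ?_⟩
    obtain ⟨n, hn⟩ := exists_nat_one_div_lt (sub_pos.2 h2)
    exact mem_iInter.1 hx n q q' h1 (by linarith) h3
  choose x hx using key
  let ψ : K × Bool → ℚ → ℝ := fun y q => sg y.2 * φ (p q) y.1
  let J : Ioi (0 : ℝ) → ℝ := fun ρ => ⨆ q : {q : ℚ // (ρ : ℝ) < q}, ψ (x ρ) q
  have hne : ∀ ρ : Ioi (0 : ℝ), Nonempty {q : ℚ // (ρ : ℝ) < q} := fun ρ =>
    (exists_rat_gt (ρ : ℝ)).elim fun q hq => ⟨⟨q, hq⟩⟩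
  have hlt : ∀ ρ ρ' : Ioi (0 : ℝ), x ρ = x ρ' → ρ < ρ' → ⌊J ρ' / η⌋ < ⌊J ρ / η⌋ := by
    intro ρ ρ' e h
    obtain ⟨q, hq1, hq2⟩ := exists_rat_btwn (show (ρ : ℝ) < ρ' from h)
    have hq0 : 0 < q := by exact_mod_cast lt_trans ρ.2 hq1
    have h1 : J ρ' ≤ ψ (x ρ) q - η := by
      have := hne ρ'
      refine ciSup_le fun q' => ?_
      have := hx ρ' q q' hq0 hq2 q'.2
      simp only [ψ, e]
      linarith
    have h2 : ψ (x ρ) q ≤ J ρ := by
      refine le_ciSup (f := fun q : {q : ℚ // (ρ : ℝ) < q} => ψ (x ρ) q)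
        ⟨|φ 0 (x ρ).1| + |b|, ?_⟩ ⟨q, hq1⟩
      rintro _ ⟨q', rfl⟩
      have t1 := bdd hφ (hp q' (by exact_mod_cast lt_trans ρ.2 q'.2)) (x ρ).1
      have t2 := le_abs_self (ψ (x ρ) q')
      have t3 := abs_sub_abs_le_abs_sub (φ (p q') (x ρ).1) (φ 0 (x ρ).1)
      simp only [ψ, sg_abs] at t2 ⊢
      linarith
    have h3 : J ρ' / η + 1 ≤ J ρ / η := by
      rw [div_add_one hη0.ne']
      exact div_le_div_of_nonneg_right (by linarith) hη0.le
    have h4 := Int.floor_le_floor h3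
    rw [Int.floor_add_one] at h4
    omega
  have hinj : Function.Injective fun ρ : Ioi (0 : ℝ) => (x ρ, ⌊J ρ / η⌋) := by
    intro ρ ρ' e
    simp only [Prod.mk.injEq] at e
    rcases lt_trichotomy ρ ρ' with h | h | h
    · have := hlt _ _ e.1 h; omega
    · exact h
    · have := hlt _ _ e.1.symm h; omega
  have hc : Countable (Ioi (0 : ℝ)) := hinj.countable
  have := Cardinal.mk_le_aleph0_iff.2 hc
  rw [Cardinal.mk_Ioi_real] at this
  exact absurd this (not_le.2 Cardinal.aleph0_lt_continuum)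

theorem no_embed_rank [CompactSpace K] [Countable K] {m : ℕ}
    (hK : derivedSet^[m] (univ : Set K) = ∅) (p : ℕ → X) (hp : ∀ n, ‖p n‖ ≤ 1)
    (hX : ∀ S T : Finset ℕ, Disjoint S T → S.card ≤ m → T.card ≤ m → ∃ A B : X, 4 ≤ ‖A - B‖ ∧
      (∀ n ∈ S, ‖A - p n‖ ≤ 1) ∧ ∀ n ∈ T, ‖B - p n‖ ≤ 1)
    {φ : X → BoundedContinuousFunction K ℝ} {a b : ℝ} (ha : 0 < a) (hab : b < 2 * a)
    (hφ : ∀ x y, a * dist x y ≤ dist (φ x) (φ y) ∧ dist (φ x) (φ y) ≤ b * dist x y) : False := by
  classical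
  set η := 2 * a - b with hη
  have hη0 : 0 < η := by linarith
  obtain ⟨l, -, s, hs, hl⟩ := (isCompact_univ_pi fun t : K =>
    (isCompact_Icc : IsCompact (Icc (φ 0 t - |b|) (φ 0 t + |b|)))).tendsto_subseq
      (x := fun n t => φ (p n) t) (fun n t _ => by
        have := abs_le.1 (bdd hφ (hp n) t)
        constructor <;> linarith)
  have hl' : ∀ t, Tendsto (fun n => φ (p (s n)) t) atTop (𝓝 (l t)) := fun t =>
    tendsto_pi_nhds.1 hl t
  let G : Finset ℕ → Set K := fun I =>
    {t | ∀ N ∈ I, η ≤ |φ (p (s (2 * N))) t - φ (p (s (2 * N + 1))) t|}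
  have hG : ∀ I, IsClosed (G I) := by
    intro I
    simp only [G, setOf_forall]
    exact isClosed_iInter fun N => isClosed_iInter fun _ => isClosed_le continuous_const
      ((φ _).continuous.sub (φ _).continuous).abs
  have key : ∀ i, ∀ I : Finset ℕ, I.card + i ≤ m → ∃ t ∈ G I, t ∈ derivedSet^[i] (univ : Set K) := by
    intro i
    induction i with
    | zero =>
      intro I hI
      obtain ⟨A, B, h1, h2, h3⟩ := hX (I.image fun N => s (2 * N)) (I.image fun N => s (2 * N + 1))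
        (by
          rw [Finset.disjoint_left]
          intro n hn hn'
          obtain ⟨N, -, rfl⟩ := Finset.mem_image.1 hn
          obtain ⟨N', -, e⟩ := Finset.mem_image.1 hn'
          have := hs.injective e
          omega)
        (le_trans Finset.card_image_le (by omega)) (le_trans Finset.card_image_le (by omega))
      obtain ⟨t, σ, h4⟩ := sep ha hab hφ h1
      refine ⟨t, fun N hN => ?_, trivial⟩
      rw [← sg_abs σ]
      exact le_trans (h4 _ _ (h2 _ (Finset.mem_image_of_mem _ hN))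
        (h3 _ (Finset.mem_image_of_mem _ hN))) (le_abs_self _)
    | succ i ih =>
      intro I hI
      choose u hu1 hu2 using fun N => ih (insert N I) (by
        have := Finset.card_insert_le N I; omega)
      obtain ⟨t, ht⟩ := exists_clusterPt_of_compactSpace (map u atTop)
      refine ⟨t, (hG I).closure_subset (mem_closure_iff_clusterPt.2 (ht.mono ?_)), ?_⟩
      · rw [le_principal_iff, mem_map]
        exact univ_mem' fun N M hM => hu1 N M (Finset.mem_insert_of_mem hM)
      · rw [Function.iterate_succ_apply' derivedSet i, mem_derivedSet,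
          accPt_principal_iff_clusterPt]
        refine ht.mono ?_
        rw [le_principal_iff, mem_map]
        have c1 : Tendsto (fun N => |φ (p (s (2 * N))) t - φ (p (s (2 * N + 1))) t|) atTop
            (𝓝 |l t - l t|) :=
          (((hl' t).comp (tendsto_id.const_mul_atTop' two_pos)).sub
            ((hl' t).comp ((tendsto_add_atTop_nat 1).comp
              (tendsto_id.const_mul_atTop' two_pos)))).abs
        rw [sub_self, abs_zero] at c1
        filter_upwards [c1.eventually (gt_mem_nhds hη0)] with N hN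
        refine ⟨hu2 N, fun e => ?_⟩
        have := hu1 N N (Finset.mem_insert_self _ _)
        rw [mem_singleton_iff.1 e] at this
        linarith
  obtain ⟨t, -, ht⟩ := key m ∅ (by simp)
  rw [hK] at ht
  exact ht

open Ordinal Pool.Agent.H.MP_349fe0_an in
theorem derived_ord (γ : Ordinal.{0}) (i : ℕ) :
    ∀ t ∈ derivedSet^[i + 1] (univ : Set (Iic γ)),
      ∃ c, c ≠ 0 ∧ t.1 = ω ^ ((i + 1 : ℕ) : Ordinal.{0}) * c := by
  have step : ∀ (W : Ordinal.{0}) (S : Set (Iic γ)), 0 < W → (∀ t ∈ S, ∃ c, t.1 = W * c) →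
      ∀ t ∈ derivedSet S, ∃ c, c ≠ 0 ∧ t.1 = W * ω * c := by
    intro W S hW hS t ht
    rw [mem_derivedSet, accPt_iff_nhds] at ht
    have hWω : W * ω ≠ 0 := (mul_pos hW omega0_pos).ne'
    have e := div_add_mod t.1 (W * ω)
    by_cases h0 : t.1 % (W * ω) = 0
    · rw [h0, add_zero] at e
      refine ⟨_, fun h => ?_, e.symm⟩
      rw [h, mul_zero] at e
      obtain ⟨y, hy1, hy2⟩ := ht (Subtype.val ⁻¹' Iic 0)
        (((open_Iic 0).preimage continuous_subtype_val).mem_nhds e.ge)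
      exact hy2 (Subtype.ext (by rw [← e]; exact le_antisymm hy1.1 zero_le))
    · exfalso
      have h1 := mod_lt t.1 hWω
      set q := t.1 / (W * ω)
      set r := t.1 % (W * ω)
      have hex : ∃ n : ℕ, r ≤ W * ((n + 1 : ℕ) : Ordinal.{0}) := by
        obtain ⟨c, hc1, hc2⟩ := (lt_mul_iff_of_isSuccLimit isSuccLimit_omega0).1 h1
        obtain ⟨n, rfl⟩ := lt_omega0.1 hc1
        exact ⟨n, le_trans hc2.le (mul_le_mul_right (Nat.cast_le.2 (Nat.le_succ n)) W)⟩
      have h2 := Nat.find_spec hex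
      set n := Nat.find hex with hn
      have h3 : W * (n : Ordinal.{0}) < r := by
        rcases Nat.eq_zero_or_pos n with h | h
        · rw [h]; simpa using pos_iff_ne_zero.2 h0
        · have := Nat.find_min hex (m := n - 1) (by omega)
          rwa [Nat.sub_add_cancel h, not_le] at this
      have h4 : W * (ω * q + n) < t.1 := by
        rw [mul_add, ← mul_assoc, ← e]
        exact add_lt_add_right h3 _
      have h5 : t.1 ≤ W * (ω * q + n + 1) := by
        rw [add_assoc, mul_add, ← mul_assoc, ← e, ← Nat.cast_succ]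
        exact add_le_add_right h2 _
      obtain ⟨y, ⟨hy1, hy2⟩, hy3⟩ := ht (Subtype.val ⁻¹' (Ioi (W * (ω * q + n)) ∩ Iic t.1))
        (((isOpen_Ioi.inter (open_Iic _)).preimage continuous_subtype_val).mem_nhds ⟨h4, self_mem_Iic⟩)
      obtain ⟨c, hc⟩ := hS y hy2
      refine hy3 (Subtype.ext (le_antisymm hy1.2 (le_trans h5 ?_)))
      have h6 : W * (ω * q + n) < y.1 := hy1.1
      rw [hc] at h6 ⊢
      exact mul_le_mul_right (Order.add_one_le_of_lt (lt_of_mul_lt_mul_left h6 zero_le)) W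
  induction i with
  | zero =>
    intro t ht
    simpa using step 1 univ one_pos (fun t _ => ⟨t.1, (one_mul _).symm⟩) t ht
  | succ i ih =>
    intro t ht
    rw [Function.iterate_succ_apply' derivedSet (i + 1)] at ht
    have := step (ω ^ ((i + 1 : ℕ) : Ordinal.{0})) _ (opow_pos _ omega0_pos)
      (fun t ht => (ih t ht).imp fun c hc => hc.2) t ht
    rwa [Nat.cast_succ (i + 1), opow_add, opow_one]

open Ordinal in
theorem derived_empty (k : ℕ) :
    derivedSet^[k + 1] (univ : Set (Iic (ω ^ (k : Ordinal.{0})))) = ∅ := by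
  refine eq_empty_of_forall_notMem fun t ht => ?_
  obtain ⟨c, hc, e⟩ := derived_ord _ k t ht
  have h1 : t.1 ≤ ω ^ (k : Ordinal.{0}) := t.2
  have h2 : ω ^ ((k + 1 : ℕ) : Ordinal.{0}) ≤ t.1 := by
    rw [e]; exact le_mul_left _ (pos_iff_ne_zero.2 hc)
  have h3 := (opow_le_opow_iff_right one_lt_omega0).1 (le_trans h2 h1)
  have h4 : k + 1 ≤ k := by exact_mod_cast h3
  omega

instance iicCompact (γ : Ordinal.{0}) : CompactSpace (Iic γ) := by
  refine isCompact_iff_compactSpace.1 ?_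
  rw [← Icc_bot]
  exact isCompact_Icc

open Ordinal in
theorem iic_countable {α : Ordinal.{0}} (hα : α < Ordinal.omega 1) : Countable (Iic (ω ^ α)) := by
  have h1 : α.card ≤ Cardinal.aleph0 := by
    rw [← Cardinal.ord_aleph, Cardinal.lt_ord, ← Cardinal.succ_aleph0, Order.lt_succ_iff] at hα
    exact hα
  have h2 : (ω ^ α).card ≤ Cardinal.aleph0 :=
    le_trans (Ordinal.card_opow_le _ _) (by simp [h1])
  have h3 : (Iio (ω ^ α)).Countable := by
    rw [← Cardinal.le_aleph0_iff_set_countable, Cardinal.mk_Iio_ordinal]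
    exact Cardinal.lift_le_aleph0.2 h2
  rw [← Iio_insert]
  exact (h3.insert _).to_subtype

end Pool.Agent.H.MP_f896b9_an
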