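import Pool.Agent.H.MP_349fe0_an.Ord

set_option autoImplicit false

namespace Pool.Agent.H.MP_f896b9_an

open Ordinal Set Filter Topology Pool.Agent.H.MP_349fe0_an

/-- every member is attained at a successor ordinal up to γ -/
def RepO {Z : Type} (γ : Ordinal.{0}) (F : Set (Z → ℝ)) : Prop :=
  ∃ π : Ordinal.{0} → Z → ℝ, Continuous π ∧ (∀ a, π a ∈ F) ∧
    ∀ f ∈ F, ∃ a : Ordinal.{0}, a + 1 ≤ γ ∧ π (a + 1) = f

theorem RepO.mono {Z : Type} {γ γ' : Ordinal.{0}} {F : Set (Z → ℝ)} (h : RepO γ F) (hγ : γ ≤ γ') :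
    RepO γ' F := by
  obtain ⟨π, h1, h2, h3⟩ := h
  refine ⟨π, h1, h2, fun f hf => ?_⟩
  obtain ⟨a, ha, hb⟩ := h3 f hf
  exact ⟨a, ha.trans hγ, hb⟩

theorem repO_single {Z : Type} (f : Z → ℝ) : RepO 1 {f} :=
  ⟨fun _ => f, continuous_const, fun _ => rfl, fun _ hg => ⟨0, by simp, hg.symm⟩⟩

theorem RepO.image {Z Z' : Type} {γ : Ordinal.{0}} {F : Set (Z → ℝ)} (hF : RepO γ F)
    (Φ : (Z → ℝ) → Z' → ℝ) (hΦ : Continuous Φ) : RepO γ (Φ '' F) := by
  obtain ⟨π, h1, h2, h3⟩ := hF
  refine ⟨fun a => Φ (π a), hΦ.comp h1, fun a => ⟨π a, h2 a, rfl⟩, ?_⟩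
  rintro _ ⟨f, hf, rfl⟩
  obtain ⟨a, ha0, ha1⟩ := h3 f hf
  exact ⟨a, ha0, by simp only [ha1]⟩

/-- least b with a ≤ ω * b -/
noncomputable def ceil (a : Ordinal.{0}) : Ordinal.{0} := sInf {b | a ≤ ω * b}

theorem ceil_le {a b : Ordinal.{0}} : ceil a ≤ b ↔ a ≤ ω * b := by
  have hne : {b | a ≤ ω * b}.Nonempty := ⟨a, le_mul_right a omega0_pos⟩
  constructor
  · intro h
    exact le_trans (csInf_mem hne) (mul_le_mul_right h _)
  · intro h
    exact csInf_le' h

theorem ceil_cont : Continuous ceil := by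
  rw [OrderTopology.continuous_iff]
  intro b
  constructor
  · have : ceil ⁻¹' Ioi b = Ioi (ω * b) := by
      ext a; simp only [mem_preimage, mem_Ioi, ← not_le, ceil_le]
    rw [this]; exact isOpen_Ioi
  · have : ceil ⁻¹' Iio b = ⋃ c ∈ Iio b, Iic (ω * c) := by
      ext a; simp only [mem_preimage, mem_Iio, mem_iUnion, mem_Iic, ← ceil_le]
      exact ⟨fun h => ⟨_, h, le_rfl⟩, fun ⟨c, h1, h2⟩ => lt_of_le_of_lt h2 h1⟩
    rw [this]; exact isOpen_biUnion fun c _ => open_Iic _

theorem ceil_pos (a : Ordinal.{0}) (n : ℕ) : ceil (ω * a + ((n + 1 : ℕ) : Ordinal.{0})) = a + 1 := by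
  apply le_antisymm
  · rw [ceil_le, mul_add, mul_one]
    exact add_le_add_right (natCast_lt_omega0 _).le _
  · rw [← Order.succ_eq_add_one, Order.succ_le_iff, ← not_le, ceil_le, not_le]
    exact lt_add_of_pos_right _ (by exact_mod_cast Nat.succ_pos n)

theorem pos_inj {a b : Ordinal.{0}} {n m : ℕ}
    (h : ω * a + (n : Ordinal.{0}) = ω * b + (m : Ordinal.{0})) : n = m := by
  have h1 := congrArg (· % ω) h
  simp only [mul_add_mod_self] at h1
  rw [mod_eq_of_lt (natCast_lt_omega0 _), mod_eq_of_lt (natCast_lt_omega0 _)] at h1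
  exact_mod_cast h1

theorem RepO.grow {Z P : Type} [Countable P] {γ : Ordinal.{0}} {F : Set (Z → ℝ)} (hF : RepO γ F)
    (g f : P → Z → ℝ) (hf : ∀ p, f p ∈ F)
    (hfin : ∀ z δ, 0 < δ → {p | δ ≤ |g p z - f p z|}.Finite) :
    RepO (ω * γ) (F ∪ range g) := by
  classical
  obtain ⟨π, h1, h2, h3⟩ := hF
  obtain ⟨e, he⟩ := Countable.exists_injective_nat P
  choose a ha1 ha2 using fun p => h3 (f p) (hf p)
  let pos : P → Ordinal.{0} := fun p => ω * a p + ((e p + 1 + 1 : ℕ) : Ordinal.{0})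
  have hinj : Function.Injective pos := fun p q h => he (by have := pos_inj h; omega)
  let ρ : Ordinal.{0} → Z → ℝ := fun b => if H : ∃ p, pos p = b then g H.choose else π (ceil b)
  have hρ : ∀ p, ρ (pos p) = g p := by
    intro p
    have H : ∃ q, pos q = pos p := ⟨p, rfl⟩
    simp only [ρ, dif_pos H]
    rw [hinj H.choose_spec]
  have hlt : ∀ (b : Ordinal.{0}) (n : ℕ), b + 1 ≤ γ → ω * b + (n : Ordinal.{0}) ≤ ω * γ := by
    intro b n hb
    refine le_trans ?_ (mul_le_mul_right hb ω)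
    rw [mul_add, mul_one]
    exact add_le_add_right (natCast_lt_omega0 _).le _
  refine ⟨ρ, ?_, ?_, ?_⟩
  · rw [continuous_pi_iff]
    intro z
    rw [continuous_iff_continuousAt]
    intro b
    by_cases H : ∃ p, pos p = b
    · obtain ⟨p, rfl⟩ := H
      have : 𝓝 (pos p) = pure (pos p) := by
        rw [SuccOrder.nhds_eq_pure]
        simp only [pos]
        rw [Nat.cast_succ, ← add_assoc, ← Order.succ_eq_add_one]
        exact Order.not_isSuccLimit_succ _
      rw [ContinuousAt, this]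
      exact tendsto_pure_nhds (fun b => ρ b z) _
    · have hb : ρ b = π (ceil b) := by simp only [ρ, dif_neg H]
      rw [Metric.continuousAt_iff']
      intro δ hδ
      have c1 : ContinuousAt (fun b => π (ceil b) z) b :=
        (((continuous_apply z).comp h1).comp ceil_cont).continuousAt
      have c2 := Metric.continuousAt_iff'.1 c1 (δ / 2) (by positivity)
      have c3 : (pos '' {p | δ / 2 ≤ |g p z - f p z|})ᶜ ∈ 𝓝 b := by
        refine ((hfin z _ (by positivity)).image pos).isClosed.isOpen_compl.mem_nhds ?_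
        rintro ⟨p, -, hp⟩
        exact H ⟨p, hp⟩
      filter_upwards [c2, c3] with b' hb1 hb2
      rw [hb]
      by_cases H' : ∃ p, pos p = b'
      · obtain ⟨p, rfl⟩ := H'
        rw [hρ]
        have e1 : π (ceil (pos p)) = f p := by simp only [pos]; rw [ceil_pos, ha2]
        rw [e1, Real.dist_eq] at hb1
        have e2 : |g p z - f p z| < δ / 2 := by
          by_contra h
          exact hb2 ⟨p, not_lt.1 h, rfl⟩
        have := abs_sub_le (g p z) (f p z) (π (ceil b) z)
        rw [Real.dist_eq]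
        linarith
      · simp only [ρ, dif_neg H']
        linarith
  · intro b
    by_cases H : ∃ p, pos p = b
    · obtain ⟨p, rfl⟩ := H
      rw [hρ]; exact Or.inr ⟨p, rfl⟩
    · simp only [ρ, dif_neg H]
      exact Or.inl (h2 _)
  · rintro f' (hf' | ⟨p, rfl⟩)
    · obtain ⟨b, hb1, hb2⟩ := h3 f' hf'
      refine ⟨ω * b, by simpa using hlt b 1 hb1, ?_⟩
      have H : ¬ ∃ p, pos p = ω * b + 1 := by
        rintro ⟨p, hp⟩
        have := pos_inj (a := a p) (b := b) (n := e p + 1 + 1) (m := 1) (by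
          rw [Nat.cast_one]; exact hp)
        omega
      simp only [ρ, dif_neg H]
      have := ceil_pos b 0
      simp only [zero_add, Nat.cast_one] at this
      rw [this, hb2]
    · refine ⟨ω * a p + ((e p + 1 : ℕ) : Ordinal.{0}), ?_, ?_⟩
      · rw [add_assoc, ← Nat.cast_succ]
        exact hlt _ _ (ha1 p)
      · rw [add_assoc, ← Nat.cast_succ]
        exact hρ p

theorem rep_cut {Z : Type} (c γ : ℕ → Ordinal.{0}) (top : Ordinal.{0}) (hc : ∀ n, c n + γ n ≤ c (n + 1))
    (htop : ∀ n, c n < top) (f0 : Z → ℝ) (F : ℕ → Set (Z → ℝ)) (hF : ∀ n, RepO (γ n) (F n))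
    (h0 : ∃ n, f0 ∈ F n)
    (hfin : ∀ z δ, 0 < δ → ∃ N, ∀ n, N ≤ n → ∀ f ∈ F n, |f z - f0 z| < δ) :
    RepO top {f | ∃ n, f ∈ F n} := by
  classical
  choose π hcont hm hs using hF
  have hmono : Monotone c := monotone_nat_of_le_succ fun n => le_trans le_self_add (hc n)
  let Q : Ordinal.{0} → ℕ → Prop := fun a n => a ≤ c (n + 1)
  let p : Ordinal.{0} → Z → ℝ := fun a =>
    if H : ∃ n, Q a n then π (Nat.find H) (a - c (Nat.find H)) else f0
  have hp : ∀ a (n : ℕ), Q a n → (n = 0 ∨ c n < a) → p a = π n (a - c n) := by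
    intro a n h1 h2
    have H : ∃ n, Q a n := ⟨n, h1⟩
    have : Nat.find H = n := by
      rw [Nat.find_eq_iff]
      refine ⟨h1, fun k hk hq => ?_⟩
      rcases h2 with h2 | h2
      · omega
      · exact absurd (le_trans hq (hmono hk)) (not_le.2 h2)
    simp only [p, dif_pos H, this]
  refine ⟨p, ?_, ?_, ?_⟩
  · rw [continuous_pi_iff]
    intro z
    rw [continuous_iff_continuousAt]
    intro a
    by_cases H : ∃ n, Q a n
    · have h1 := Nat.find_spec H
      set n := Nat.find H with hn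
      have h2 : n = 0 ∨ c n < a := by
        rcases Nat.eq_zero_or_pos n with h0 | h0
        · exact Or.inl h0
        · right
          have := Nat.find_min H (m := n - 1) (by omega)
          simp only [Q, not_le] at this
          rwa [Nat.sub_add_cancel h0] at this
      have hev : ∀ᶠ b in 𝓝 a, Q b n ∧ (n = 0 ∨ c n < b) := by
        refine Eventually.and ((open_Iic _).mem_nhds h1) ?_
        rcases h2 with h2 | h2
        · exact Eventually.of_forall fun _ => Or.inl h2
        · exact (isOpen_Ioi.mem_nhds h2 : Ioi _ ∈ 𝓝 a) |> fun hh =>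
            Filter.mem_of_superset hh fun b hb => Or.inr hb
      have hcont : ContinuousAt (fun b => π n (b - c n) z) a :=
        (((continuous_apply z).comp (hcont n)).comp (cont_sub _)).continuousAt
      refine hcont.congr (hev.mono fun b hb => ?_)
      simp only [hp b n hb.1 hb.2]
    · have hpa : p a = f0 := by simp only [p, dif_neg H]
      rw [Metric.continuousAt_iff']
      intro δ hδ
      obtain ⟨N, hN⟩ := hfin z δ hδ
      have h3 : c (N + 1) < a := by
        by_contra h4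
        exact H ⟨N, not_lt.1 h4⟩
      refine Filter.mem_of_superset (isOpen_Ioi.mem_nhds h3) fun b hb => ?_
      simp only [mem_setOf_eq, hpa, Real.dist_eq]
      by_cases H' : ∃ n, Q b n
      · simp only [p, dif_pos H']
        refine hN _ ?_ _ (hm _ _)
        by_contra h5
        have h6 := Nat.find_spec H'
        exact absurd (le_trans h6 (hmono (by omega))) (not_le.2 hb)
      · simp only [p, dif_neg H']
        simpa using hδ
  · intro a
    by_cases H : ∃ n, Q a n
    · simp only [p, dif_pos H]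
      exact ⟨_, hm _ _⟩
    · simp only [p, dif_neg H]
      exact h0
  · rintro f ⟨n, hf⟩
    obtain ⟨a, ha1, ha2⟩ := hs n f hf
    have hq : Q (c n + (a + 1)) n := le_trans (add_le_add_right ha1 _) (hc n)
    refine ⟨c n + a, ?_, ?_⟩
    · rw [add_assoc]; exact le_trans hq (htop _).le
    · rw [add_assoc, hp _ n hq (Or.inr (lt_add_of_pos_right _ (by simp))),
        Ordinal.add_sub_cancel, ha2]

theorem rep_omega {Z P : Type} [Countable P] (h : P → ℕ) (f0 : Z → ℝ) (C : P → Prop)
    (F : P → Set (Z → ℝ)) (hF : ∀ p, C p → RepO (ω ^ (h p : Ordinal.{0})) (F p))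
    (hfin : ∀ z δ, 0 < δ → {p | C p ∧ ∃ f ∈ F p, δ ≤ |f z - f0 z|}.Finite) :
    RepO (ω ^ ω) {f | f = f0 ∨ ∃ p, C p ∧ f ∈ F p} := by
  classical
  obtain ⟨e, he⟩ := Countable.exists_injective_nat P
  let F' : ℕ → Set (Z → ℝ) := fun n =>
    if H : ∃ p, C p ∧ e p + 1 = n then F H.choose else {f0}
  let h' : ℕ → ℕ := fun n => if H : ∃ p, C p ∧ e p + 1 = n then h H.choose else 0
  let c : ℕ → Ordinal.{0} := fun n => Nat.rec 0 (fun n c => c + ω ^ (h' n : Ordinal.{0})) n
  have hz : ¬ ∃ p, C p ∧ e p + 1 = 0 := by rintro ⟨p, -, hp⟩; omega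
  have key := rep_cut c (fun n => ω ^ (h' n : Ordinal.{0})) (ω ^ ω) (fun n => le_rfl) ?_ f0 F' ?_
    ⟨0, by simp only [F', dif_neg hz]; rfl⟩ ?_
  · have : {f | ∃ n, f ∈ F' n} = {f | f = f0 ∨ ∃ p, C p ∧ f ∈ F p} := by
      ext f
      simp only [mem_setOf_eq]
      constructor
      · rintro ⟨n, hn⟩
        by_cases H : ∃ p, C p ∧ e p + 1 = n
        · simp only [F', dif_pos H] at hn
          exact Or.inr ⟨_, H.choose_spec.1, hn⟩
        · simp only [F', dif_neg H] at hn
          exact Or.inl hn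
      · rintro (h1 | ⟨p, hp, hf⟩)
        · exact ⟨0, by simp only [F', dif_neg hz]; exact h1⟩
        · have H : ∃ q, C q ∧ e q + 1 = e p + 1 := ⟨p, hp, rfl⟩
          refine ⟨e p + 1, ?_⟩
          simp only [F', dif_pos H]
          rwa [he (Nat.succ_injective H.choose_spec.2)]
    rwa [this] at key
  · intro n
    induction n with
    | zero => exact opow_pos _ omega0_pos
    | succ n ih =>
      exact isPrincipal_add_omega0_opow ω ih
        ((opow_lt_opow_iff_right one_lt_omega0).2 (natCast_lt_omega0 _))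
  · intro n
    by_cases H : ∃ p, C p ∧ e p + 1 = n
    · simp only [F', h', dif_pos H]
      exact hF _ H.choose_spec.1
    · simp only [F', h', dif_neg H]
      simpa using repO_single f0
  · intro z δ hδ
    obtain ⟨N, hN⟩ := ((hfin z δ hδ).image e).bddAbove
    refine ⟨N + 2, fun n hn f hf => ?_⟩
    by_cases H : ∃ p, C p ∧ e p + 1 = n
    · simp only [F', dif_pos H] at hf
      by_contra h1
      have := hN ⟨H.choose, ⟨H.choose_spec.1, f, hf, not_lt.1 h1⟩, rfl⟩
      have := H.choose_spec.2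
      omega
    · simp only [F', dif_neg H] at hf
      rw [mem_singleton_iff.1 hf]; simpa using hδ

/-- a represented norming family gives an embedding -/
theorem embed_of_rep {X : Type} [NormedAddCommGroup X] {γ : Ordinal.{0}} {F : Set (X → ℝ)}
    (hF : RepO γ F) (hL : ∀ f ∈ F, ∀ x y, f x - f y ≤ ‖x - y‖) (hb : ∀ f ∈ F, ∀ x, |f x| ≤ ‖x‖)
    {κ : ℝ} (hn : ∀ x y, x ≠ y → ∃ f ∈ F, κ * ‖x - y‖ ≤ |f x - f y|) :
    ∃ φ : X → BoundedContinuousFunction (Set.Iic γ) ℝ, ∀ x y,
      κ * dist x y ≤ dist (φ x) (φ y) ∧ dist (φ x) (φ y) ≤ dist x y := by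
  obtain ⟨π, hc, hm, hs⟩ := hF
  let f : X → BoundedContinuousFunction (Set.Iic γ) ℝ := fun z =>
    BoundedContinuousFunction.ofNormedAddCommGroup (fun a => π a.1 z)
      (((continuous_apply z).comp hc).comp continuous_subtype_val) ‖z‖ (fun a => hb _ (hm a.1) z)
  have hf : ∀ z a, f z a = π a.1 z := fun _ _ => rfl
  refine ⟨f, fun x y => ⟨?_, ?_⟩⟩
  · rcases eq_or_ne x y with rfl | hxy
    · simp
    · obtain ⟨g, hg, h1⟩ := hn x y hxy
      obtain ⟨a, ha1, ha2⟩ := hs g hg
      have h2 := BoundedContinuousFunction.dist_coe_le_dist (f := f x) (g := f y) ⟨a + 1, ha1⟩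
      rw [hf, hf, Real.dist_eq] at h2
      simp only [ha2] at h2
      rw [dist_eq_norm x y]
      linarith
  · rw [BoundedContinuousFunction.dist_le dist_nonneg]
    intro a
    rw [hf, hf, Real.dist_eq, dist_eq_norm, abs_le]
    have h2 := hL _ (hm a.1) x y
    have h3 := hL _ (hm a.1) y x
    rw [norm_sub_rev] at h3
    constructor <;> linarith

end Pool.Agent.H.MP_f896b9_an
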