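import Pool.Agent.H.MP_f896b9_an.Line

set_option autoImplicit false

namespace Pool.Agent.H.MP_f896b9_an

open Set Filter Topology

variable {Λ : Type} [LinearOrder Λ]

theorem partition [Nonempty Λ] (S : Finset Λ) (ν : Λ → ℝ) (hν : ∀ a, 0 ≤ ν a) {η : ℝ} (hη : 0 < η) :
    ∃ (J : ℕ) (R : ℕ → Set Λ) (tp : ℕ → Λ), J * η ≤ ∑ a ∈ S, ν a ∧
      (∀ j μ, |cum (R j) μ| ≤ 2 * p1 Λ μ) ∧
      (∀ μ, ∑ j ∈ Finset.range J, |cum (R j) μ| ≤ p0 Λ μ) ∧
      ∀ μ : Λ →₀ ℝ, μ.support ⊆ S → (∀ a, |μ a| ≤ ν a) →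
        p1 Λ (μ - ∑ j ∈ Finset.range J, Finsupp.single (tp j) (cum (R j) μ)) ≤ η := by
  classical
  let w : Λ → ℝ := fun a => ∑ b ∈ S.filter (· < a), ν b
  have hw0 : ∀ a, 0 ≤ w a := fun a => Finset.sum_nonneg fun b _ => hν b
  have hw : Monotone w := fun a a' h => Finset.sum_le_sum_of_subset_of_nonneg
    (fun b hb => Finset.mem_filter.2 ⟨(Finset.mem_filter.1 hb).1,
      lt_of_lt_of_le (Finset.mem_filter.1 hb).2 h⟩) fun b _ _ => hν b
  let c : Λ → ℕ := fun a => ⌊w a / η⌋₊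
  have hc : Monotone c := fun a a' h =>
    Nat.floor_le_floor (div_le_div_of_nonneg_right (hw h) hη.le)
  have fl1 : ∀ x : ℝ, 0 ≤ x → (⌊x / η⌋₊ : ℝ) * η ≤ x := fun x hx => by
    rw [← le_div_iff₀ hη]; exact Nat.floor_le (by positivity)
  have fl2 : ∀ x : ℝ, x < ((⌊x / η⌋₊ : ℝ) + 1) * η := fun x => by
    rw [← div_lt_iff₀ hη]; exact Nat.lt_floor_add_one _
  let tp : ℕ → Λ := fun j =>
    if h : (S.filter (c · = j)).Nonempty then (S.filter (c · = j)).max' h else Classical.arbitrary Λ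
  have htp : ∀ a ∈ S, a ≤ tp (c a) ∧ c (tp (c a)) = c a := by
    intro a ha
    have h : (S.filter (c · = c a)).Nonempty := ⟨a, Finset.mem_filter.2 ⟨ha, rfl⟩⟩
    simp only [tp, dif_pos h]
    exact ⟨Finset.le_max' (S.filter (c · = c a)) a (Finset.mem_filter.2 ⟨ha, rfl⟩),
      (Finset.mem_filter.1 (Finset.max'_mem _ h)).2⟩
  refine ⟨⌊(∑ a ∈ S, ν a) / η⌋₊, fun j => {a | c a = j}, tp,
    fl1 _ (Finset.sum_nonneg fun b _ => hν b), ?_, ?_, ?_⟩
  · intro j μ
    have h1 := le_p1 (U := {a | c a < j + 1}) (fun a b h ha => lt_of_le_of_lt (hc h) ha) μ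
    have h2 := le_p1 (U := {a | c a < j}) (fun a b h ha => lt_of_le_of_lt (hc h) ha) μ
    have h3 : cum {a | c a = j} μ = cum {a | c a < j + 1} μ - cum {a | c a < j} μ := by
      simp only [cum_eq _ (subset_refl μ.support), ← Finset.sum_sub_distrib, mem_setOf_eq]
      refine Finset.sum_congr rfl fun a _ => ?_
      split_ifs <;> first | omega | simp
    rw [h3]
    have := abs_sub (cum {a | c a < j + 1} μ) (cum {a | c a < j} μ)
    linarith
  · intro μ
    simp only [cum_eq _ (subset_refl μ.support), p0_eq (subset_refl μ.support), mem_setOf_eq]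
    refine le_trans (Finset.sum_le_sum fun j _ => Finset.abs_sum_le_sum_abs _ _) ?_
    rw [Finset.sum_comm]
    refine Finset.sum_le_sum fun a _ => ?_
    simp only [apply_ite abs, abs_zero, Finset.sum_ite_eq]
    split_ifs <;> simp
  · intro μ hμ hb
    refine p1_le hη.le fun U hU => ?_
    set J := ⌊(∑ a ∈ S, ν a) / η⌋₊ with hJ
    let F := S.filter fun a => a ∈ U ∧ ¬ (c a < J ∧ tp (c a) ∈ U)
    have h1 : cum U (μ - ∑ j ∈ Finset.range J, Finsupp.single (tp j) (cum {a | c a = j} μ)) =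
        ∑ a ∈ F, μ a := by
      rw [map_sub, map_sum]
      simp only [cum_single, cum_eq _ hμ, mem_setOf_eq]
      have e : ∀ j, (if tp j ∈ U then ∑ a ∈ S, if c a = j then μ a else 0 else 0) =
          ∑ a ∈ S, if c a = j then (if tp j ∈ U then μ a else 0) else 0 := by
        intro j; split_ifs <;> simp
      simp only [e]
      rw [Finset.sum_comm, ← Finset.sum_sub_distrib, Finset.sum_filter]
      refine Finset.sum_congr rfl fun a ha => ?_
      have := fun h => hU (htp a ha).1 h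
      simp only [Finset.sum_ite_eq, Finset.mem_range]
      split_ifs <;> first | (exfalso; tauto) | simp
    rw [h1]
    refine le_trans (Finset.abs_sum_le_sum_abs _ _)
      (le_trans (Finset.sum_le_sum fun a _ => hb a) ?_)
    rcases F.eq_empty_or_nonempty with h | h
    · rw [h, Finset.sum_empty]; exact hη.le
    · have h2 := Finset.mem_filter.1 (F.min'_mem h)
      set a0 := F.min' h
      have h3 := fl1 _ (hw0 a0)
      have hdis : Disjoint F (S.filter (· < a0)) := by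
        rw [Finset.disjoint_left]
        intro b hb hb'
        exact absurd (Finset.mem_filter.1 hb').2 (not_lt.2 (F.min'_le b hb))
      have h4 : ∀ T : Finset Λ, F ∪ S.filter (· < a0) ⊆ T →
          ∑ a ∈ F, ν a + w a0 ≤ ∑ a ∈ T, ν a := fun T hT => by
        rw [← Finset.sum_union hdis]
        exact Finset.sum_le_sum_of_subset_of_nonneg hT fun b _ _ => hν b
      by_cases h5 : c a0 < J
      · have h6 : tp (c a0) ∉ U := fun h => h2.2.2 ⟨h5, h⟩
        have h7 := h4 (S.filter (· < tp (c a0))) (by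
          intro b hb
          rcases Finset.mem_union.1 hb with hb | hb
          · have := Finset.mem_filter.1 hb
            exact Finset.mem_filter.2 ⟨this.1, not_le.1 fun h => h6 (hU h this.2.1)⟩
          · have := Finset.mem_filter.1 hb
            exact Finset.mem_filter.2 ⟨this.1, lt_of_lt_of_le this.2 (htp a0 h2.1).1⟩)
        have h8 := fl2 (w (tp (c a0)))
        have h9 : ⌊w (tp (c a0)) / η⌋₊ = ⌊w a0 / η⌋₊ := (htp a0 h2.1).2
        rw [h9] at h8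
        change _ ≤ w (tp (c a0)) at h7
        linarith
      · have h7 := h4 S (Finset.union_subset (Finset.filter_subset _ _) (Finset.filter_subset _ _))
        have h8 := fl2 (∑ a ∈ S, ν a)
        have h9 : (J : ℝ) ≤ ⌊w a0 / η⌋₊ := by exact_mod_cast not_lt.1 h5
        have := mul_le_mul_of_nonneg_right h9 hη.le
        linarith

noncomputable def kk (Λ : Type) [LinearOrder Λ] (k : ℤ) : Seminorm ℝ (Λ →₀ ℝ) :=
  p0 Λ ⊓ ((4 : NNReal) ^ k) • p1 Λ

theorem kk_apply (k : ℤ) (x : Λ →₀ ℝ) :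
    kk Λ k x = ⨅ a, (p0 Λ a + (4 : ℝ) ^ k * p1 Λ (x - a)) := by
  rw [kk, Seminorm.inf_apply]
  simp [NNReal.smul_def]

theorem kk_le (k : ℤ) (x a : Λ →₀ ℝ) : kk Λ k x ≤ p0 Λ a + (4 : ℝ) ^ k * p1 Λ (x - a) := by
  rw [kk_apply]
  refine ciInf_le ⟨0, ?_⟩ a
  rintro _ ⟨b, rfl⟩
  have := apply_nonneg (p0 Λ) b
  have := apply_nonneg (p1 Λ) (x - b)
  positivity

theorem le_kk {k : ℤ} {x : Λ →₀ ℝ} {c : ℝ}
    (h : ∀ a, c ≤ p0 Λ a + (4 : ℝ) ^ k * p1 Λ (x - a)) : c ≤ kk Λ k x := by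
  rw [kk_apply]; exact le_ciInf h

theorem kk_mono {k k' : ℤ} (h : k ≤ k') (x : Λ →₀ ℝ) : kk Λ k x ≤ kk Λ k' x := by
  refine le_kk fun a => le_trans (kk_le k x a) ?_
  have : (4 : ℝ) ^ k ≤ 4 ^ k' := zpow_le_zpow_right₀ (by norm_num) h
  have := mul_le_mul_of_nonneg_right this (apply_nonneg (p1 Λ) (x - a))
  linarith

theorem min_le_kk (k : ℤ) (x : Λ →₀ ℝ) : min 1 ((4 : ℝ) ^ k) * p1 Λ x ≤ kk Λ k x := by
  refine le_kk fun a => ?_
  have h1 : p1 Λ x ≤ p1 Λ a + p1 Λ (x - a) := by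
    simpa using map_add_le_add (p1 Λ) a (x - a)
  have h2 := p1_le_p0 a
  have h3 := apply_nonneg (p1 Λ) a
  have h4 := apply_nonneg (p1 Λ) (x - a)
  have h5 : 0 ≤ min 1 ((4 : ℝ) ^ k) := by positivity
  have h6 := mul_le_mul_of_nonneg_left h1 h5
  have h7 := mul_le_mul_of_nonneg_right (min_le_left 1 ((4 : ℝ) ^ k)) h3
  have h8 := mul_le_mul_of_nonneg_right (min_le_right 1 ((4 : ℝ) ^ k)) h4
  linarith

theorem kk_near (k : ℤ) (x : Λ →₀ ℝ) :
    ∃ a, p0 Λ a + (4 : ℝ) ^ k * p1 Λ (x - a) ≤ 2 * kk Λ k x := by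
  rcases (apply_nonneg (kk Λ k) x).lt_or_eq with h | h
  · have : (⨅ a, (p0 Λ a + (4 : ℝ) ^ k * p1 Λ (x - a))) < 2 * kk Λ k x := by
      rw [← kk_apply]; linarith
    obtain ⟨a, ha⟩ := exists_lt_of_ciInf_lt this
    exact ⟨a, ha.le⟩
  · have h1 := min_le_kk k x
    have h2 : 0 < min 1 ((4 : ℝ) ^ k) := by positivity
    have h3 : p1 Λ x ≤ 0 := by
      by_contra h4
      have := mul_pos h2 (not_le.1 h4)
      linarith
    refine ⟨0, ?_⟩
    rw [map_zero, sub_zero, le_antisymm h3 (apply_nonneg _ _), ← h]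
    simp

theorem rad_two_G {n : ℕ} (G : Finset (Fin n)) (c : Fin n → ℝ) :
    ∑ ε : Fin n → Bool, (∑ i ∈ G, sg (ε i) * c i) ^ 2 = 2 ^ n * ∑ i ∈ G, c i ^ 2 := by
  classical
  have := rad_two n fun i => if i ∈ G then c i else 0
  simpa [Finset.sum_ite_mem] using this

theorem sg_sum_le {E : Type} [AddCommGroup E] [Module ℝ E] (N : Seminorm ℝ E) {n : ℕ}
    (G : Finset (Fin n)) (ε : Fin n → Bool) (x : Fin n → E) :
    N (∑ i ∈ G, sg (ε i) • x i) ≤ ∑ i ∈ G, N (x i) := by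
  refine le_trans (Finset.le_sum_of_subadditive N (map_zero N).le (map_add_le_add N) _ _)
    (Finset.sum_le_sum fun i _ => le_of_eq ?_)
  rw [map_smul_eq_mul, Real.norm_eq_abs, ← mul_one (sg _), sg_abs, abs_one, one_mul]

theorem level [Nonempty Λ] {n : ℕ} (G : Finset (Fin n)) (x : Fin n → (Λ →₀ ℝ)) (k : ℤ) (l : ℕ) :
    ∑ ε : Fin n → Bool, kk Λ k (∑ i ∈ G, sg (ε i) • x i) ^ 2 ≤
      2 ^ n * (3 * (4 * G.card * ∑ i ∈ G, kk Λ (k - l) (x i) ^ 2 +
        (36 * G.card / (4 ^ l) ^ 2 + 32 * (4 ^ l) ^ 2) * ∑ i ∈ G, kk Λ (k + l) (x i) ^ 2)) := by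
  classical
  set t : ℝ := 4 ^ k with ht
  set lam : ℝ := 4 ^ l with hlam
  have ht0 : 0 < t := by positivity
  have hl0 : 0 < lam := by positivity
  have hl1 : 1 ≤ lam := one_le_pow₀ (by norm_num)
  have e0 : (4 : ℝ) ^ (k - l) = t / lam := by rw [zpow_sub₀ (by norm_num), zpow_natCast]
  have e1 : (4 : ℝ) ^ (k + l) = t * lam := by rw [zpow_add₀ (by norm_num), zpow_natCast]
  set K0 : Fin n → ℝ := fun i => kk Λ (k - l) (x i) with hK0
  set K1 : Fin n → ℝ := fun i => kk Λ (k + l) (x i) with hK1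
  have hK00 : ∀ i, 0 ≤ K0 i := fun i => apply_nonneg _ _
  have hK01 : ∀ i, K0 i ≤ K1 i := fun i => kk_mono (by omega) _
  have hK10 : ∀ i, 0 ≤ K1 i := fun i => apply_nonneg _ _
  have cs0 := sq_sum_le_card_mul_sum_sq (s := G) (f := K0)
  have cs1 := sq_sum_le_card_mul_sum_sq (s := G) (f := K1)
  have q0 : 0 ≤ ∑ i ∈ G, K0 i ^ 2 := by positivity
  have q1 : 0 ≤ ∑ i ∈ G, K1 i ^ 2 := by positivity
  rcases (Finset.sum_nonneg fun i _ => hK10 i : 0 ≤ ∑ i ∈ G, K1 i).eq_or_lt with hz | hz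
  · refine le_trans (le_of_eq (Finset.sum_eq_zero fun ε _ => ?_)) (by positivity)
    have h1 := sg_sum_le (kk Λ k) G ε x
    have h2 : ∑ i ∈ G, kk Λ k (x i) ≤ ∑ i ∈ G, K1 i :=
      Finset.sum_le_sum fun i _ => kk_mono (by omega) _
    rw [le_antisymm (by linarith) (apply_nonneg (kk Λ k) _)]; simp
  choose a ha using fun i => kk_near (k - l) (x i)
  choose a' ha' using fun i => kk_near (k + l) (x i)
  rw [e0] at ha
  rw [e1] at ha'
  have a1 : ∀ i, p0 Λ (a i) ≤ 2 * K0 i := fun i => by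
    have := ha i; have : 0 ≤ t / lam * p1 Λ (x i - a i) := by positivity
    linarith
  have a2 : ∀ i, t * p1 Λ (x i - a i) ≤ 2 * K0 i * lam := fun i => by
    have h1 := ha i; have h2 := apply_nonneg (p0 Λ) (a i)
    rw [← div_le_iff₀ hl0, mul_div_right_comm]; linarith
  have a3 : ∀ i, p0 Λ (a' i) ≤ 2 * K1 i := fun i => by
    have := ha' i; have : 0 ≤ t * lam * p1 Λ (x i - a' i) := by positivity
    linarith
  have a4 : ∀ i, t * p1 Λ (x i - a' i) ≤ 2 * K1 i / lam := fun i => by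
    have h1 := ha' i; have h2 := apply_nonneg (p0 Λ) (a' i)
    rw [le_div_iff₀ hl0]; linarith
  let m : Fin n → (Λ →₀ ℝ) := fun i => a' i - a i
  have m0 : ∀ i, p0 Λ (m i) ≤ 4 * K1 i := fun i => by
    have := map_sub_le_add (p0 Λ) (a' i) (a i)
    linarith [a1 i, a3 i, hK01 i]
  have m1 : ∀ i, t * p1 Λ (m i) ≤ 4 * K1 i * lam := fun i => by
    have h1 := map_sub_le_add (p1 Λ) (x i - a i) (x i - a' i)
    rw [sub_sub_sub_cancel_left] at h1
    have h2 := mul_le_mul_of_nonneg_left h1 ht0.le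
    have h3 : 2 * K1 i / lam ≤ 2 * K1 i * lam :=
      le_trans (div_le_self (by linarith [hK10 i]) hl1)
        (le_mul_of_one_le_right (by linarith [hK10 i]) hl1)
    have h4 := mul_le_mul_of_nonneg_right (hK01 i) hl0.le
    linarith [a2 i, a4 i]
  let S : Finset Λ := G.biUnion fun i => (m i).support
  have hS : ∀ i ∈ G, (m i).support ⊆ S := fun i hi =>
    Finset.subset_biUnion_of_mem (fun i => (m i).support) hi
  obtain ⟨J, R, tp, P1, P3, P4, P5⟩ := partition S (fun b => ∑ i ∈ G, |m i b|)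
    (fun b => by positivity) (η := 4 * (∑ i ∈ G, K1 i) / (lam * t)) (by positivity)
  have hJ : (J : ℝ) ≤ lam * t := by
    have h1 : ∑ b ∈ S, ∑ i ∈ G, |m i b| ≤ 4 * ∑ i ∈ G, K1 i := by
      rw [Finset.sum_comm, Finset.mul_sum]
      exact Finset.sum_le_sum fun i hi => by rw [← p0_eq (hS i hi)]; exact m0 i
    have h2 := le_trans P1 h1
    rw [← mul_div_assoc, div_le_iff₀ (by positivity)] at h2
    nlinarith
  have pt : ∀ ε : Fin n → Bool, kk Λ k (∑ i ∈ G, sg (ε i) • x i) ^ 2 ≤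
      3 * ((2 * ∑ i ∈ G, K0 i) ^ 2 + (6 * (∑ i ∈ G, K1 i) / lam) ^ 2 +
        J * ∑ j ∈ Finset.range J, (∑ i ∈ G, sg (ε i) * cum (R j) (m i)) ^ 2) := by
    intro ε
    set M := ∑ i ∈ G, sg (ε i) • m i with hM
    set A := ∑ j ∈ Finset.range J, Finsupp.single (tp j) (cum (R j) M) with hA
    have b1 := kk_le k (∑ i ∈ G, sg (ε i) • x i) (∑ i ∈ G, sg (ε i) • a i + A)
    have b2 : ∑ i ∈ G, sg (ε i) • x i - (∑ i ∈ G, sg (ε i) • a i + A) =
        ∑ i ∈ G, sg (ε i) • (x i - a' i) + (M - A) := by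
      simp only [hM, m, smul_sub, Finset.sum_sub_distrib]; abel
    rw [b2] at b1
    have b3 := map_add_le_add (p0 Λ) (∑ i ∈ G, sg (ε i) • a i) A
    have b4 := mul_le_mul_of_nonneg_left
      (map_add_le_add (p1 Λ) (∑ i ∈ G, sg (ε i) • (x i - a' i)) (M - A)) ht0.le
    have b5 : p0 Λ (∑ i ∈ G, sg (ε i) • a i) ≤ 2 * ∑ i ∈ G, K0 i := by
      rw [Finset.mul_sum]
      exact le_trans (sg_sum_le _ _ _ _) (Finset.sum_le_sum fun i _ => a1 i)
    have b6 : t * p1 Λ (∑ i ∈ G, sg (ε i) • (x i - a' i)) ≤ 2 * (∑ i ∈ G, K1 i) / lam := by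
      refine le_trans (mul_le_mul_of_nonneg_left (sg_sum_le _ _ _ _) ht0.le) ?_
      rw [Finset.mul_sum, Finset.mul_sum, Finset.sum_div]
      exact Finset.sum_le_sum fun i _ => a4 i
    have b7 : t * p1 Λ (M - A) ≤ 4 * (∑ i ∈ G, K1 i) / lam := by
      refine le_trans (mul_le_mul_of_nonneg_left (P5 M ?_ fun b => ?_) ht0.le) (le_of_eq ?_)
      · exact Finsupp.support_finsetSum.trans
          (Finset.biUnion_mono fun i _ => Finsupp.support_smul)
      · rw [hM, Finsupp.finsetSum_apply]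
        refine le_trans (Finset.abs_sum_le_sum_abs _ _) (Finset.sum_le_sum fun i _ => ?_)
        rw [Finsupp.smul_apply, smul_eq_mul, sg_abs]
      · field_simp
    have b8 : p0 Λ A ≤ ∑ j ∈ Finset.range J, |∑ i ∈ G, sg (ε i) * cum (R j) (m i)| := by
      refine le_trans (Finset.le_sum_of_subadditive (p0 Λ) (map_zero _).le (map_add_le_add _) _ _)
        (Finset.sum_le_sum fun j _ => le_of_eq ?_)
      simp only [p0_single, hM, map_sum, map_smul, smul_eq_mul]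
    have b9 := sq_sum_le_card_mul_sum_sq (s := Finset.range J)
      (f := fun j => |∑ i ∈ G, sg (ε i) * cum (R j) (m i)|)
    simp only [sq_abs, Finset.card_range] at b9
    have b10 : kk Λ k (∑ i ∈ G, sg (ε i) • x i) ≤ 2 * ∑ i ∈ G, K0 i + 6 * (∑ i ∈ G, K1 i) / lam +
        ∑ j ∈ Finset.range J, |∑ i ∈ G, sg (ε i) * cum (R j) (m i)| := by
      have : 6 * (∑ i ∈ G, K1 i) / lam =
          2 * (∑ i ∈ G, K1 i) / lam + 4 * (∑ i ∈ G, K1 i) / lam := by ring
      linarith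
    have b11 := pow_le_pow_left₀ (apply_nonneg _ _) b10 2
    have b12 : ∀ u v w : ℝ, (u + v + w) ^ 2 ≤ 3 * (u ^ 2 + v ^ 2 + w ^ 2) := fun u v w => by
      nlinarith [sq_nonneg (u - v), sq_nonneg (u - w), sq_nonneg (v - w)]
    have b13 := b12 (2 * ∑ i ∈ G, K0 i) (6 * (∑ i ∈ G, K1 i) / lam)
      (∑ j ∈ Finset.range J, |∑ i ∈ G, sg (ε i) * cum (R j) (m i)|)
    linarith
  refine le_trans (Finset.sum_le_sum fun ε _ => pt ε) ?_
  rw [← Finset.mul_sum, Finset.sum_add_distrib, ← Finset.mul_sum, Finset.sum_comm]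
  simp only [rad_two_G, Finset.sum_const, Finset.card_univ, Fintype.card_pi, Fintype.card_bool,
    Finset.prod_const, Fintype.card_fin, nsmul_eq_mul]
  rw [← Finset.mul_sum, Finset.sum_comm]
  have c1 : t * ∑ i ∈ G, ∑ j ∈ Finset.range J, cum (R j) (m i) ^ 2 ≤
      32 * lam * ∑ i ∈ G, K1 i ^ 2 := by
    rw [Finset.mul_sum, Finset.mul_sum]
    refine Finset.sum_le_sum fun i _ => ?_
    have d1 : ∑ j ∈ Finset.range J, cum (R j) (m i) ^ 2 ≤ 2 * p1 Λ (m i) * p0 Λ (m i) := by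
      refine le_trans (Finset.sum_le_sum fun j _ => ?_) (le_trans (le_of_eq
        (Finset.mul_sum _ _ _).symm) (mul_le_mul_of_nonneg_left (P4 (m i)) (by positivity)))
      rw [← sq_abs, sq]
      exact mul_le_mul_of_nonneg_right (P3 j _) (abs_nonneg _)
    have d2 := mul_le_mul (m1 i) (m0 i) (apply_nonneg _ _) (by have := hK10 i; positivity)
    have d3 := mul_le_mul_of_nonneg_left d1 ht0.le
    linarith
  have c2 : (J : ℝ) * ∑ i ∈ G, ∑ j ∈ Finset.range J, cum (R j) (m i) ^ 2 ≤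
      32 * lam ^ 2 * ∑ i ∈ G, K1 i ^ 2 := by
    have d1 := mul_le_mul_of_nonneg_right hJ
      (show 0 ≤ ∑ i ∈ G, ∑ j ∈ Finset.range J, cum (R j) (m i) ^ 2 by positivity)
    have d2 := mul_le_mul_of_nonneg_left c1 hl0.le
    linarith
  have c3 : (6 * (∑ i ∈ G, K1 i) / lam) ^ 2 ≤ 36 * G.card / lam ^ 2 * ∑ i ∈ G, K1 i ^ 2 := by
    rw [div_pow, div_mul_eq_mul_div]
    exact div_le_div_of_nonneg_right (by linarith) (by positivity)
  have c4 : (0 : ℝ) < 2 ^ n := by positivity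
  have c5 : (2 * ∑ i ∈ G, K0 i) ^ 2 + (6 * (∑ i ∈ G, K1 i) / lam) ^ 2 +
      (J : ℝ) * ∑ i ∈ G, ∑ j ∈ Finset.range J, cum (R j) (m i) ^ 2 ≤
      4 * G.card * ∑ i ∈ G, K0 i ^ 2 +
        (36 * G.card / lam ^ 2 + 32 * lam ^ 2) * ∑ i ∈ G, K1 i ^ 2 := by linarith
  have c6 := mul_le_mul_of_nonneg_left c5 c4.le
  push_cast
  linarith

end Pool.Agent.H.MP_f896b9_an
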