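import Pool.Agent.H.MP_f896b9_an.Space

set_option autoImplicit false

namespace Pool.Agent.H.MP_f896b9_an

open Set Filter Topology UniformSpace

abbrev Gm (m : ℕ) : Type :=
  {p : Finset ℕ × Finset ℕ // Disjoint p.1 p.2 ∧ p.1.card ≤ m ∧ p.2.card ≤ m}

abbrev Hm (m : ℕ) : Type := lp (fun _ : ℕ ⊕ Gm m => ℝ) 2

def ev {m : ℕ} (i : ℕ ⊕ Gm m) : Hm m →ₗ[ℝ] ℝ where
  toFun f := f i
  map_add' _ _ := rfl
  map_smul' _ _ := rfl

theorem ev_le {m : ℕ} (i : ℕ ⊕ Gm m) (f : Hm m) : |ev i f| ≤ ‖f‖ :=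
  lp.norm_apply_le_norm (by simp) f i

noncomputable def FG {m : ℕ} (γ : Gm m) : Hm m →ₗ[ℝ] ℝ :=
  ∑ n ∈ γ.1.1, ev (Sum.inl n) - ∑ n ∈ γ.1.2, ev (Sum.inl n) + (2 : ℝ) • ev (Sum.inr γ)

theorem FG_apply {m : ℕ} (γ : Gm m) (f : Hm m) : FG γ f =
    ∑ n ∈ γ.1.1, ev (Sum.inl n) f - ∑ n ∈ γ.1.2, ev (Sum.inl n) f + 2 * ev (Sum.inr γ) f := by
  simp [FG]

theorem FG_le {m : ℕ} (γ : Gm m) (f : Hm m) : |FG γ f| ≤ (2 * m + 2) * ‖f‖ := by
  have h : ∀ S : Finset ℕ, S.card ≤ m → |∑ n ∈ S, ev (Sum.inl n) f| ≤ m * ‖f‖ := by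
    intro S hS
    refine le_trans (Finset.abs_sum_le_sum_abs _ _)
      (le_trans (Finset.sum_le_card_nsmul _ _ _ fun n _ => ev_le _ f) ?_)
    rw [nsmul_eq_mul]
    exact mul_le_mul_of_nonneg_right (by exact_mod_cast hS) (norm_nonneg _)
  have h1 := abs_le.1 (h _ γ.2.2.1)
  have h2 := abs_le.1 (h _ γ.2.2.2)
  have h3 := abs_le.1 (ev_le (Sum.inr γ) f)
  rw [FG_apply, abs_le]
  constructor <;> linarith

theorem FG_bdd {m : ℕ} (f : Hm m) : BddAbove (range fun γ : Gm m => |FG γ f|) :=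
  ⟨(2 * m + 2) * ‖f‖, by rintro _ ⟨γ, rfl⟩; exact FG_le γ f⟩

noncomputable def NS (m : ℕ) : Seminorm ℝ (Hm m) :=
  ((2⁻¹ : NNReal) • normSeminorm ℝ (Hm m)) ⊔ supS FG FG_bdd

theorem NS_apply {m : ℕ} (f : Hm m) : NS m f = max (2⁻¹ * ‖f‖) (supS FG FG_bdd f) := by
  rw [NS, Seminorm.sup_apply]
  simp [NNReal.smul_def]

open Classical in
noncomputable def ee {m : ℕ} (i : ℕ ⊕ Gm m) : Hm m := lp.single 2 i 1

theorem norm_ee {m : ℕ} (i : ℕ ⊕ Gm m) : ‖ee i‖ = 1 := by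
  rw [ee, lp.norm_single (by simp)]; simp

open Classical in
theorem ev_ee {m : ℕ} (i j : ℕ ⊕ Gm m) : ev j (ee i) = if j = i then 1 else 0 := by
  change (Pi.single i 1 : ℕ ⊕ Gm m → ℝ) j = _
  rw [Pi.single_apply]

theorem FG_inl {m : ℕ} (γ : Gm m) (n : ℕ) :
    FG γ (ee (Sum.inl n)) = if n ∈ γ.1.1 then 1 else if n ∈ γ.1.2 then -1 else 0 := by
  have : n ∈ γ.1.1 → n ∉ γ.1.2 := fun h => Finset.disjoint_left.1 γ.2.1 h
  rw [FG_apply]
  simp only [ev_ee, Sum.inl.injEq, Finset.sum_ite_eq', reduceCtorEq, if_false]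
  split_ifs <;> first | (exfalso; tauto) | simp

open Classical in
theorem FG_inr {m : ℕ} (γ γ' : Gm m) : FG γ (ee (Sum.inr γ')) = if γ = γ' then 2 else 0 := by
  rw [FG_apply]
  simp [ev_ee]

theorem Hm_sep (m : ℕ) : TopologicalSpace.SeparableSpace (Hm m) := by
  classical
  rw [← TopologicalSpace.isSeparable_univ_iff]
  have h1 : TopologicalSpace.IsSeparable (range (ee (m := m))) := (countable_range _).isSeparable
  refine h1.span (R := ℝ).closure.mono fun f _ => ?_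
  refine mem_closure_of_tendsto (lp.hasSum_single (by simp) f) (Eventually.of_forall fun s => ?_)
  refine Submodule.sum_mem _ fun i _ => ?_
  have : lp.single 2 i (f i) = f i • ee i := by
    rw [ee, ← lp.single_smul]; simp
  rw [this]
  exact Submodule.smul_mem _ _ (Submodule.subset_span ⟨i, rfl⟩)

theorem sr_equiv (m : ℕ) : Nonempty (Hm m ≃L[ℝ] Completion (SN (NS m))) := by
  let T : Hm m →L[ℝ] Completion (SN (NS m)) := (emb (NS m)).mkContinuous (2 * m + 2) fun f => by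
    rw [norm_emb, NS_apply]
    have := norm_nonneg f
    have : 0 ≤ (m : ℝ) * ‖f‖ := by positivity
    exact max_le (by linarith) (supS_le _ _ (by positivity) fun γ => FG_le γ f)
  have hT : AntilipschitzWith 2 T := T.antilipschitz_of_bound fun f => by
    have : 2⁻¹ * ‖f‖ ≤ ‖T f‖ := by
      change _ ≤ ‖emb (NS m) f‖
      rw [norm_emb, NS_apply]; exact le_max_left _ _
    push_cast; linarith
  refine ⟨ContinuousLinearEquiv.ofBijective T (LinearMap.ker_eq_bot.2 hT.injective) ?_⟩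
  rw [LinearMap.range_eq_top]
  have h1 := hT.isClosed_range T.uniformContinuous
  have h2 : DenseRange T := emb_dense (NS m)
  rw [← range_eq_univ, ← h2.closure_range]
  exact h1.closure_eq.symm

theorem sr_space (m : ℕ) : TopologicalSpace.SeparableSpace (Completion (SN (NS m))) ∧
    SuperRefl (Completion (SN (NS m))) := by
  obtain ⟨e⟩ := sr_equiv m
  have := Hm_sep m
  exact ⟨e.surjective.denseRange.separableSpace e.continuous,
    Hm m, inferInstance, inferInstance, inferInstance, ⟨e.symm⟩⟩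

theorem sr_no_embed {K : Type 1} [TopologicalSpace K] [CompactSpace K] [Countable K] {m : ℕ}
    (hK : derivedSet^[m] (univ : Set K) = ∅)
    {φ : Completion (SN (NS m)) → BoundedContinuousFunction K ℝ} {a b : ℝ} (ha : 0 < a)
    (hab : b < 2 * a)
    (hφ : ∀ x y, a * dist x y ≤ dist (φ x) (φ y) ∧ dist (φ x) (φ y) ≤ b * dist x y) : False := by
  have hN : ∀ f, ‖f‖ ≤ 2 → (∀ γ, |FG γ f| ≤ 1) → ‖emb (NS m) f‖ ≤ 1 := by
    intro f h1 h2
    rw [norm_emb, NS_apply]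
    exact max_le (by linarith) (supS_le _ _ zero_le_one h2)
  refine no_embed_rank hK (fun n => emb _ (ee (Sum.inl n))) (fun n => ?_) (fun S T h1 h2 h3 =>
    ⟨emb _ (ee (Sum.inr ⟨(S, T), h1, h2, h3⟩)), emb _ (-ee (Sum.inr ⟨(S, T), h1, h2, h3⟩)), ?_,
      fun n hn => ?_, fun n hn => ?_⟩) ha hab hφ
  · refine hN _ (by rw [norm_ee]; norm_num) fun γ => ?_
    rw [FG_inl]; split_ifs <;> simp
  · rw [← map_sub, norm_emb, NS_apply]
    refine le_trans (le_trans ?_ (le_supS FG FG_bdd ⟨(S, T), h1, h2, h3⟩ _)) (le_max_right _ _)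
    rw [map_sub, map_neg, FG_inr, if_pos rfl]; norm_num
  · rw [← map_sub]
    refine hN _ (le_trans (norm_sub_le _ _) (by rw [norm_ee, norm_ee]; norm_num)) fun γ => ?_
    rw [map_sub, FG_inr, FG_inl]
    split_ifs with c1 c2 c3 <;> first | (subst c1; exact absurd hn c2) | norm_num
  · rw [← map_sub]
    refine hN _ (le_trans (norm_sub_le _ _) (by rw [norm_neg, norm_ee, norm_ee]; norm_num))
      fun γ => ?_
    rw [map_sub, map_neg, FG_inr, FG_inl]
    split_ifs with c1 c2 c3 <;>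
      first
        | (subst c1; exact absurd hn (Finset.disjoint_left.1 h1 c2))
        | (subst c1; exact absurd hn c3)
        | norm_num

end Pool.Agent.H.MP_f896b9_an
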