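import Pool.Agent.H.MP_f896b9_an.Defs
import Pool.Agent.H.MP_f896b9_an.Lower

set_option autoImplicit false

namespace Pool.Agent.H.MP_f896b9_an

open Set Filter Topology UniformSpace

section Rad

theorem sum_succ (n : ℕ) (F : (Fin (n + 1) → Bool) → ℝ) :
    ∑ ε, F ε = ∑ ε : Fin n → Bool, (F (Fin.cons true ε) + F (Fin.cons false ε)) := by
  rw [← (Fin.consEquiv fun _ => Bool).sum_comp, Fintype.sum_prod_type, Fintype.sum_bool,
    Finset.sum_add_distrib]
  rfl

theorem rad_two (n : ℕ) (c : Fin n → ℝ) :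
    ∑ ε : Fin n → Bool, (∑ i, sg (ε i) * c i) ^ 2 = 2 ^ n * ∑ i, c i ^ 2 := by
  induction n with
  | zero => simp
  | succ n ih =>
    rw [sum_succ]
    simp only [Fin.sum_univ_succ, Fin.cons_zero, Fin.cons_succ]
    have : ∀ y : ℝ, (sg true * c 0 + y) ^ 2 + (sg false * c 0 + y) ^ 2 = 2 * c 0 ^ 2 + 2 * y ^ 2 := by
      intro y; simp only [sg, if_true, Bool.false_eq_true, if_false]; ring
    simp only [this]
    rw [Finset.sum_add_distrib, ← Finset.mul_sum, ← Finset.mul_sum, ih]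
    simp only [Finset.sum_const, Finset.card_univ, Fintype.card_pi, Fintype.card_bool,
      Finset.prod_const, Fintype.card_fin, nsmul_eq_mul]
    push_cast; ring

theorem rad_four (n : ℕ) (c : Fin n → ℝ) :
    ∑ ε : Fin n → Bool, (∑ i, sg (ε i) * c i) ^ 4 ≤ 3 * 2 ^ n * (∑ i, c i ^ 2) ^ 2 := by
  induction n with
  | zero => simp
  | succ n ih =>
    rw [sum_succ]
    simp only [Fin.sum_univ_succ, Fin.cons_zero, Fin.cons_succ]
    have : ∀ y : ℝ, (sg true * c 0 + y) ^ 4 + (sg false * c 0 + y) ^ 4 =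
        2 * c 0 ^ 4 + 12 * c 0 ^ 2 * y ^ 2 + 2 * y ^ 4 := by
      intro y; simp only [sg, if_true, Bool.false_eq_true, if_false]; ring
    simp only [this]
    rw [Finset.sum_add_distrib, Finset.sum_add_distrib, ← Finset.mul_sum, ← Finset.mul_sum,
      ← Finset.mul_sum, rad_two]
    simp only [Finset.sum_const, Finset.card_univ, Fintype.card_pi, Fintype.card_bool,
      Finset.prod_const, Fintype.card_fin, nsmul_eq_mul]
    have h1 := ih fun i => c i.succ
    have h2 : (0 : ℝ) ≤ 2 ^ n * c 0 ^ 4 := by positivity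
    push_cast
    rw [pow_succ (2 : ℝ) n]
    nlinarith

theorem khintchine (n : ℕ) (c : Fin n → ℝ) :
    2 ^ n * √(∑ i, c i ^ 2) ≤ 2 * ∑ ε : Fin n → Bool, |∑ i, sg (ε i) * c i| := by
  set s := √(∑ i, c i ^ 2) with hs
  have hs2 : s ^ 2 = ∑ i, c i ^ 2 := Real.sq_sqrt (by positivity)
  rcases (Real.sqrt_nonneg _ : 0 ≤ s).lt_or_eq with h | h
  · have key : ∀ y : ℝ, 12 * s ^ 2 * y ^ 2 - y ^ 4 ≤ 16 * s ^ 3 * |y| := by
      intro y
      have h1 : 0 ≤ |y| * (|y| - 2 * s) ^ 2 * (|y| + 4 * s) := by positivity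
      have h2 : |y| ^ 2 = y ^ 2 := sq_abs y
      have h3 : |y| ^ 4 = y ^ 4 := by rw [show 4 = 2 * 2 from rfl, pow_mul, pow_mul, h2]
      nlinarith
    have h1 := Finset.sum_le_sum fun (ε : Fin n → Bool) (_ : ε ∈ Finset.univ) =>
      key (∑ i, sg (ε i) * c i)
    rw [Finset.sum_sub_distrib, ← Finset.mul_sum, ← Finset.mul_sum, rad_two, ← hs2] at h1
    have h2 := rad_four n c
    rw [← hs2] at h2
    have h3 : (0 : ℝ) < 2 ^ n * s ^ 4 := by positivity
    refine le_of_mul_le_mul_left ?_ (show 0 < 8 * s ^ 3 by positivity)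
    nlinarith
  · have h' : s = 0 := h.symm
    rw [h', mul_zero]; positivity

end Rad

variable {E : Type} [AddCommGroup E] [Module ℝ E]

noncomputable def supS {Γ : Type} (F : Γ → E →ₗ[ℝ] ℝ)
    (hF : ∀ x, BddAbove (range fun γ => |F γ x|)) : Seminorm ℝ E :=
  Seminorm.of (fun x => ⨆ γ, |F γ x|)
    (fun x y => Real.iSup_le (fun γ => by
      rw [map_add]
      exact le_trans (abs_add_le _ _) (add_le_add (le_ciSup (hF x) γ) (le_ciSup (hF y) γ)))
      (add_nonneg (Real.iSup_nonneg fun _ => abs_nonneg _) (Real.iSup_nonneg fun _ => abs_nonneg _)))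
    (fun a x => by
      simp only [map_smul, smul_eq_mul, abs_mul, Real.norm_eq_abs]
      exact (Real.mul_iSup_of_nonneg (abs_nonneg a) _).symm)

theorem le_supS {Γ : Type} (F : Γ → E →ₗ[ℝ] ℝ) (hF : ∀ x, BddAbove (range fun γ => |F γ x|))
    (γ : Γ) (x : E) : |F γ x| ≤ supS F hF x := le_ciSup (hF x) γ

theorem supS_le {Γ : Type} (F : Γ → E →ₗ[ℝ] ℝ) (hF : ∀ x, BddAbove (range fun γ => |F γ x|))
    {x : E} {c : ℝ} (hc : 0 ≤ c) (h : ∀ γ, |F γ x| ≤ c) : supS F hF x ≤ c := Real.iSup_le h hc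

/-- the space E with the seminorm N -/
def SN (_ : Seminorm ℝ E) : Type := E

instance (N : Seminorm ℝ E) : AddCommGroup (SN N) := inferInstanceAs (AddCommGroup E)
instance (N : Seminorm ℝ E) : Module ℝ (SN N) := inferInstanceAs (Module ℝ E)

def SN.sn (N : Seminorm ℝ E) : Seminorm ℝ (SN N) := N

noncomputable instance (N : Seminorm ℝ E) : SeminormedAddCommGroup (SN N) :=
  AddGroupSeminorm.toSeminormedAddCommGroup (SN.sn N).toAddGroupSeminorm

noncomputable instance (N : Seminorm ℝ E) : NormedSpace ℝ (SN N) where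
  norm_smul_le a x := (map_smul_eq_mul (SN.sn N) a x).le

def toSN (N : Seminorm ℝ E) : E ≃ₗ[ℝ] SN N := LinearEquiv.refl ℝ E

theorem norm_toSN (N : Seminorm ℝ E) (x : E) : ‖toSN N x‖ = N x := rfl

noncomputable def emb (N : Seminorm ℝ E) : E →ₗ[ℝ] Completion (SN N) :=
  (Completion.toComplL (𝕜 := ℝ) (E := SN N)).toLinearMap ∘ₗ (toSN N).toLinearMap

theorem norm_emb (N : Seminorm ℝ E) (x : E) : ‖emb N x‖ = N x := by
  rw [← norm_toSN]
  exact Completion.norm_coe (toSN N x)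

theorem emb_dense (N : Seminorm ℝ E) : DenseRange (emb N) :=
  Completion.denseRange_coe (α := SN N)

theorem sep_completion {Λ : Type} [Countable Λ] (N : Seminorm ℝ (Λ →₀ ℝ)) :
    TopologicalSpace.SeparableSpace (Completion (SN N)) := by
  rw [← TopologicalSpace.isSeparable_univ_iff]
  have h1 : TopologicalSpace.IsSeparable (range fun a => emb N (Finsupp.single a 1)) :=
    (countable_range _).isSeparable
  refine h1.span (R := ℝ).closure.mono fun x _ => ?_
  refine closure_mono ?_ (emb_dense N x)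
  rintro _ ⟨μ, rfl⟩
  rw [← Finsupp.sum_single μ, Finsupp.sum, map_sum]
  refine Submodule.sum_mem _ fun a _ => ?_
  rw [← Finsupp.smul_single_one, map_smul]
  exact Submodule.smul_mem _ _ (Submodule.subset_span ⟨a, rfl⟩)

noncomputable def radN (N : Seminorm ℝ E) {n : ℕ} (x : Fin n → E) : ℝ :=
  (∑ ε : Fin n → Bool, N (∑ i, sg (ε i) • x i) ^ 2) / 2 ^ n

theorem radSq_emb (N : Seminorm ℝ E) {n : ℕ} (x : Fin n → E) :
    radSq (fun i => emb N (x i)) = radN N x := by
  simp only [radSq, radN, ← norm_emb, map_sum, map_smul]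
  rfl

theorem radSq_cont {X : Type} [NormedAddCommGroup X] [NormedSpace ℝ X] (n : ℕ) :
    Continuous fun x : Fin n → X => √(radSq x) := by
  unfold radSq; fun_prop

theorem pw_cont {X : Type} [NormedAddCommGroup X] (n : ℕ) {p : ℝ} (hp : 0 < p) :
    Continuous fun x : Fin n → X => (∑ i, ‖x i‖ ^ p) ^ (1 / p) := by
  refine Continuous.rpow_const (continuous_finsetSum _ fun i _ => ?_)
    fun _ => Or.inr (by positivity)
  exact Continuous.rpow_const (by fun_prop) fun _ => Or.inr hp.le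

theorem hasType_of (N : Seminorm ℝ E) {p C : ℝ} (hp : 1 < p) (hp2 : p ≤ 2)
    (h : ∀ n (x : Fin n → E), √(radN N x) ≤ C * (∑ i, N (x i) ^ p) ^ (1 / p)) :
    HasType (Completion (SN N)) := by
  refine ⟨p, hp, hp2, C, fun n x => ?_⟩
  refine (DenseRange.piMap fun _ : Fin n => emb_dense N).induction_on x
    (isClosed_le (radSq_cont n) (continuous_const.mul (pw_cont n (by linarith)))) fun y => ?_
  have := h n y
  rw [← radSq_emb] at this
  simp only [← norm_emb] at this
  exact this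

theorem hasCotype_of (N : Seminorm ℝ E) {q C : ℝ} (hq : 2 ≤ q)
    (h : ∀ n (x : Fin n → E), (∑ i, N (x i) ^ q) ^ (1 / q) ≤ C * √(radN N x)) :
    HasCotype (Completion (SN N)) := by
  refine ⟨q, hq, C, fun n x => ?_⟩
  refine (DenseRange.piMap fun _ : Fin n => emb_dense N).induction_on x
    (isClosed_le (pw_cont n (by linarith)) (continuous_const.mul (radSq_cont n))) fun y => ?_
  have := h n y
  rw [← radSq_emb] at this
  simp only [← norm_emb] at this
  exact this

theorem radN_mono {N M : Seminorm ℝ E} {c : ℝ} (hc : 0 ≤ c) (h : ∀ x, N x ≤ c * M x) {n : ℕ}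
    (x : Fin n → E) : √(radN N x) ≤ c * √(radN M x) := by
  rw [← Real.sqrt_sq hc, ← Real.sqrt_mul (sq_nonneg c)]
  refine Real.sqrt_le_sqrt ?_
  rw [radN, radN, ← mul_div_assoc, Finset.mul_sum]
  refine div_le_div_of_nonneg_right (Finset.sum_le_sum fun ε _ => ?_) (by positivity)
  rw [← mul_pow]
  exact pow_le_pow_left₀ (apply_nonneg _ _) (h _) 2

theorem pw_mono {N M : Seminorm ℝ E} {c p : ℝ} (hc : 0 ≤ c) (hp : 0 < p) (h : ∀ x, N x ≤ c * M x)
    {n : ℕ} (x : Fin n → E) :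
    (∑ i, N (x i) ^ p) ^ (1 / p) ≤ c * (∑ i, M (x i) ^ p) ^ (1 / p) := by
  have h1 : ∑ i, N (x i) ^ p ≤ c ^ p * ∑ i, M (x i) ^ p := by
    rw [Finset.mul_sum]
    refine Finset.sum_le_sum fun i _ => ?_
    rw [← Real.mul_rpow hc (apply_nonneg _ _)]
    exact Real.rpow_le_rpow (apply_nonneg _ _) (h _) hp.le
  have h2 : 0 ≤ ∑ i, M (x i) ^ p :=
    Finset.sum_nonneg fun i _ => Real.rpow_nonneg (apply_nonneg _ _) _
  refine le_trans (Real.rpow_le_rpow
    (Finset.sum_nonneg fun i _ => Real.rpow_nonneg (apply_nonneg _ _) _) h1 (by positivity)) ?_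
  rw [Real.mul_rpow (Real.rpow_nonneg hc _) h2, ← Real.rpow_mul hc, mul_one_div_cancel hp.ne',
    Real.rpow_one]

end Pool.Agent.H.MP_f896b9_an
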