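import Pool.Agent.H.MP_f896b9_an.Ord2

set_option autoImplicit false

namespace Pool.Agent.H.MP_f896b9_an

open Set Filter Topology

variable {X : Type} [NormedAddCommGroup X] [NormedSpace ℝ X]

def Bs (X : Type) [NormedAddCommGroup X] [NormedSpace ℝ X] : Set (WeakDual ℝ X) :=
  {u | ∀ x, |u x| ≤ ‖x‖}

theorem Bs_compact : IsCompact (Bs X) := by
  have : Bs X = WeakDual.toStrongDual ⁻¹' Metric.closedBall (0 : StrongDual ℝ X) 1 := by
    ext u
    simp only [Bs, mem_setOf_eq, mem_preimage, mem_closedBall_zero_iff]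
    rw [ContinuousLinearMap.opNorm_le_iff zero_le_one]
    simp only [one_mul, Real.norm_eq_abs]
    rfl
  rw [this]
  exact WeakDual.isCompact_closedBall _ _

theorem ev_cont (x : X) : Continuous fun u : WeakDual ℝ X => u x := WeakDual.eval_continuous x

def Far (ε : ℝ) (u v : WeakDual ℝ X) : Prop := ∃ x, ‖x‖ ≤ 1 ∧ ε < u x - v x

def sz (ε : ℝ) (L : Set (WeakDual ℝ X)) : Set (WeakDual ℝ X) :=
  {u | u ∈ L ∧ ∀ V, IsOpen V → u ∈ V → ∃ v ∈ V ∩ L, ∃ w ∈ V ∩ L, Far ε v w}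

theorem sz_closed {ε : ℝ} {L : Set (WeakDual ℝ X)} (hL : IsClosed L) : IsClosed (sz ε L) := by
  rw [← closure_subset_iff_isClosed]
  intro u hu
  refine ⟨hL.closure_subset_iff.2 (fun v hv => hv.1) hu, fun V hV huV => ?_⟩
  obtain ⟨v, hv1, hv2⟩ := mem_closure_iff.1 hu V hV huV
  exact hv2.2 V hV hv1

theorem iter_succ (ε : ℝ) (j : ℕ) (L : Set (WeakDual ℝ X)) :
    (sz ε)^[j + 1] L = sz ε ((sz ε)^[j] L) := Function.iterate_succ_apply' _ _ _

theorem iter_facts (ε : ℝ) (j : ℕ) :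
    IsClosed ((sz ε)^[j] (Bs X)) ∧ (sz ε)^[j] (Bs X) ⊆ Bs X := by
  induction j with
  | zero => exact ⟨Bs_compact.isClosed, subset_rfl⟩
  | succ j ih =>
    rw [Function.iterate_succ_apply']
    exact ⟨sz_closed ih.1, fun u hu => ih.2 hu.1⟩

theorem open_near {ι : Type} {s : Set ι} (hs : s.Finite) (y : ι → X) (u : WeakDual ℝ X) (τ : ℝ) :
    IsOpen {v : WeakDual ℝ X | ∀ i ∈ s, |v (y i) - u (y i)| < τ} := by
  have : {v : WeakDual ℝ X | ∀ i ∈ s, |v (y i) - u (y i)| < τ} =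
      ⋂ i ∈ s, {v : WeakDual ℝ X | |v (y i) - u (y i)| < τ} := by ext v; simp
  rw [this]
  exact hs.isOpen_biInter fun i _ =>
    isOpen_lt ((ev_cont _).sub continuous_const).abs continuous_const

theorem finite_net (Φ : Finset (WeakDual ℝ X)) (hΦ : ∀ φ ∈ Φ, φ ∈ Bs X) {τ : ℝ} (hτ : 0 < τ) :
    ∃ Y : Set X, Y.Finite ∧ (∀ y ∈ Y, ‖y‖ ≤ 1) ∧
      ∀ x, ‖x‖ ≤ 1 → ∃ y ∈ Y, ∀ φ ∈ Φ, |φ x - φ y| < τ := by
  let ev : X → (Φ → ℝ) := fun x φ => φ.1 x
  have hb : Bornology.IsBounded (ev '' {x | ‖x‖ ≤ 1}) := by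
    rw [isBounded_iff_forall_norm_le]
    refine ⟨1, ?_⟩
    rintro _ ⟨x, hx, rfl⟩
    rw [pi_norm_le_iff_of_nonneg zero_le_one]
    intro φ
    exact le_trans (hΦ _ φ.2 x) hx
  have ht : TotallyBounded (ev '' {x | ‖x‖ ≤ 1}) :=
    hb.isCompact_closure.totallyBounded.subset subset_closure
  have := Metric.finite_approx_of_totallyBounded ht τ hτ
  rw [Set.exists_subset_image_finite_and] at this
  obtain ⟨Y, h1, h2, h3⟩ := this
  refine ⟨Y, h2, fun y hy => h1 hy, fun x hx => ?_⟩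
  have := h3 ⟨x, hx, rfl⟩
  simp only [mem_iUnion] at this
  obtain ⟨_, ⟨y, hy, rfl⟩, h4⟩ := this
  refine ⟨y, hy, fun φ hφ => ?_⟩
  rw [Metric.mem_ball, dist_pi_lt_iff hτ] at h4
  exact h4 ⟨φ, hφ⟩

theorem base_step {ε : ℝ} (hε : 0 < ε) {L : Set (WeakDual ℝ X)} {u : WeakDual ℝ X}
    (hu : u ∈ sz ε L) (huB : u ∈ Bs X) (Φ : Finset (WeakDual ℝ X)) (hΦ : ∀ φ ∈ Φ, φ ∈ Bs X)
    {V : Set (WeakDual ℝ X)} (hV : IsOpen V) (huV : u ∈ V) :
    ∃ x : X, ‖x‖ ≤ 1 ∧ ∃ u' ∈ V ∩ L, ε / 8 < u' x ∧ ∀ φ ∈ Φ, |φ x| < ε / 16 := by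
  classical
  obtain ⟨Y, hY1, hY2, hY3⟩ := finite_net (insert u Φ) (by
    intro φ hφ
    rcases Finset.mem_insert.1 hφ with rfl | h
    · exact huB
    · exact hΦ φ h) (τ := ε / 8) (by positivity)
  obtain ⟨v, hv, w, hw, x0, hx0, hf⟩ := hu.2 (V ∩ {v | ∀ y ∈ Y, |v y - u y| < ε / 8})
    (hV.inter (open_near hY1 id u _)) ⟨huV, fun y _ => by simpa using hε⟩
  have key : ∃ u' ∈ (V ∩ {v : WeakDual ℝ X | ∀ y ∈ Y, |v y - u y| < ε / 8}) ∩ L, ∃ x1 : X,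
      ‖x1‖ ≤ 1 ∧ ε / 2 < u' x1 - u x1 := by
    by_cases h : ε / 2 < v x0 - u x0
    · exact ⟨v, hv, x0, hx0, h⟩
    · refine ⟨w, hw, -x0, by simpa using hx0, ?_⟩
      rw [map_neg, map_neg]; linarith
  obtain ⟨u', hu', x1, hx1, hf1⟩ := key
  obtain ⟨y, hy, hy2⟩ := hY3 x1 hx1
  refine ⟨(1 / 2 : ℝ) • (x1 - y), ?_, u', ⟨hu'.1.1, hu'.2⟩, ?_, fun φ hφ => ?_⟩
  · rw [norm_smul]
    have := norm_sub_le x1 y
    have := hY2 y hy
    rw [Real.norm_of_nonneg (by norm_num)]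
    linarith
  · have h1 := abs_lt.1 (hy2 u (Finset.mem_insert_self _ _))
    have h2 := abs_lt.1 (hu'.1.2 y hy)
    rw [map_smul, map_sub, smul_eq_mul]
    linarith
  · have h1 := abs_lt.1 (hy2 φ (Finset.mem_insert_of_mem hφ))
    rw [map_smul, map_sub, smul_eq_mul, abs_lt]
    constructor <;> linarith

theorem sz_finite {Y : Type} [NormedAddCommGroup Y] [NormedSpace ℝ Y] [UniformConvexSpace Y]
    (T : X ≃L[ℝ] Y) {ε : ℝ} (hε : 0 < ε) : ∃ k, (sz ε)^[k] (Bs X) = ∅ := by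
  classical
  obtain ⟨b, hb0, hb⟩ := (T : X →L[ℝ] Y).bound
  obtain ⟨a, ha0, ha⟩ := (T.symm : Y →L[ℝ] X).bound
  have ha' : ∀ x, ‖x‖ ≤ a * ‖T x‖ := fun x => by simpa using ha (T x)
  obtain ⟨δ0, hδ0, hδ⟩ := exists_forall_closed_ball_dist_add_le_two_sub Y
    (ε := ε / 16 / a / b) (by positivity)
  set q : ℝ := 1 - min δ0 1 / 2 with hq
  have hq0 : 0 < q := by have := min_le_right δ0 1; linarith
  have hq1 : q < 1 := by have : 0 < min δ0 1 := lt_min hδ0 one_pos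
                         linarith
  have huc : ∀ (r : ℝ) (x y : Y), 0 < r → r ≤ b → ‖x‖ ≤ r → ‖y‖ ≤ r → ε / 16 / a ≤ ‖x - y‖ →
      ‖x + y‖ ≤ 2 * (r * q) := by
    intro r x y hr hrb hx hy hxy
    have e : ∀ z : Y, ‖r⁻¹ • z‖ = ‖z‖ / r := fun z => by
      rw [norm_smul, Real.norm_of_nonneg (by positivity), div_eq_inv_mul]
    have := hδ (x := r⁻¹ • x) (by rw [e, div_le_one hr]; exact hx) (y := r⁻¹ • y)
      (by rw [e, div_le_one hr]; exact hy) (by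
        rw [← smul_sub, e]
        exact div_le_div₀ (norm_nonneg _) hxy hr hrb)
    rw [← smul_add, e, div_le_iff₀ hr] at this
    have h2 := mul_le_mul_of_nonneg_right (min_le_left δ0 1) hr.le
    rw [hq]; linarith
  have Q : ∀ p j : ℕ, ∀ u ∈ (sz ε)^[j + 2 ^ p] (Bs X), ∀ Φ : Finset (WeakDual ℝ X),
      (∀ φ ∈ Φ, φ ∈ Bs X) → ∀ V, IsOpen V → u ∈ V →
      ∃ x : X, ‖x‖ ≤ 1 ∧ ∃ u' ∈ V ∩ (sz ε)^[j] (Bs X), ε / 8 < u' x ∧ (∀ φ ∈ Φ, |φ x| < ε / 16) ∧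
        ‖T x‖ ≤ b * q ^ p := by
    intro p
    induction p with
    | zero =>
      intro j u hu Φ hΦ V hV huV
      have huB := (iter_facts ε _).2 hu
      rw [pow_zero, iter_succ] at hu
      obtain ⟨x, hx, u', h1, h2, h3⟩ := base_step hε hu huB Φ hΦ hV huV
      refine ⟨x, hx, u', h1, h2, h3, le_trans (hb x) ?_⟩
      rw [pow_zero]; exact mul_le_mul_of_nonneg_left hx hb0.le
    | succ p ih =>
      intro j u hu Φ hΦ V hV huV
      rw [pow_succ, mul_two, ← add_assoc] at hu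
      obtain ⟨x1, hx1, u1, hu1, h1, h2, h3⟩ := ih _ u hu Φ hΦ V hV huV
      have hu1B := (iter_facts ε _).2 hu1.2
      obtain ⟨x2, hx2, u2, hu2, h4, h5, h6⟩ := ih j u1 hu1.2 (insert u1 Φ) (by
        intro φ hφ
        rcases Finset.mem_insert.1 hφ with rfl | h
        · exact hu1B
        · exact hΦ φ h) (V ∩ {v | ε / 8 < v x1})
        (hV.inter (isOpen_lt continuous_const (ev_cont _))) ⟨hu1.1, h1⟩
      refine ⟨(1 / 2 : ℝ) • (x1 + x2), ?_, u2, ⟨hu2.1.1, hu2.2⟩, ?_, fun φ hφ => ?_, ?_⟩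
      · rw [norm_smul, Real.norm_of_nonneg (by norm_num)]
        have := norm_add_le x1 x2
        linarith
      · have h7 : ε / 8 < u2 x1 := hu2.1.2
        rw [map_smul, map_add, smul_eq_mul]
        linarith
      · have h7 := abs_lt.1 (h2 φ hφ)
        have h8 := abs_lt.1 (h5 φ (Finset.mem_insert_of_mem hφ))
        rw [map_smul, map_add, smul_eq_mul, abs_lt]
        constructor <;> linarith
      · have h7 := abs_lt.1 (h5 u1 (Finset.mem_insert_self _ _))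
        have h8 := le_trans (le_abs_self _) (hu1B (x1 - x2))
        rw [map_sub] at h8
        have h9 := ha' (x1 - x2)
        have h10 := huc (b * q ^ p) (T x1) (T x2) (by positivity)
          (mul_le_of_le_one_right hb0.le (pow_le_one₀ hq0.le hq1.le)) h3 h6 (by
            rw [← map_sub, div_le_iff₀ ha0]; linarith)
        rw [map_smul, map_add, norm_smul, Real.norm_of_nonneg (by norm_num), pow_succ]
        linarith
  obtain ⟨p, hp⟩ := exists_pow_lt_of_lt_one (show 0 < ε / 8 / a / b by positivity) hq1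
  refine ⟨0 + 2 ^ p, eq_empty_of_forall_notMem fun u hu => ?_⟩
  obtain ⟨x, -, u', hu', h1, -, h3⟩ := Q p 0 u hu ∅ (by simp) univ isOpen_univ trivial
  have h4 := le_trans (le_abs_self _) (hu'.2 x)
  have h5 := ha' x
  rw [lt_div_iff₀ hb0, lt_div_iff₀ ha0] at hp
  have h6 := mul_le_mul_of_nonneg_left h3 ha0.le
  linarith

end Pool.Agent.H.MP_f896b9_an
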